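import Pool.Agent.Lib.MP_108739_an.Osc

/-! Good and bad dyadic intervals. -/

namespace Pool.Agent.Lib.MP_108739_an

open Set

/-- Length of the dyadic intervals of level `K`. -/
noncomputable def len (K : ℕ) : ℝ := (1 / 2 : ℝ) ^ K

theorem len_pos (K : ℕ) : 0 < len K := by unfold len; positivity

theorem len_succ (K : ℕ) : len K = 2 * len (K + 1) := by unfold len; ring

theorem len_mul (K : ℕ) : (2 : ℝ) ^ K * len K = 1 := by
  unfold len; rw [← mul_pow]; norm_num

theorem len_le_one (K : ℕ) : len K ≤ 1 := by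
  unfold len; exact pow_le_one₀ (by norm_num) (by norm_num)

/-- `h` is at least the length on the closed dyadic interval `(K, j)`. -/
def Up (h : ℝ → ℝ) (K j : ℕ) : Prop :=
  ∀ u ∈ Icc ((j : ℝ) * len K) (((j : ℝ) + 1) * len K), len K ≤ h u

def Good (h : ℝ → ℝ) (K j : ℕ) : Prop := Up h K j ∨ Up (fun u => -h u) K j

theorem sub_unit {K j : ℕ} (hj : j < 2 ^ K) :
    Icc ((j : ℝ) * len K) (((j : ℝ) + 1) * len K) ⊆ Icc (0 : ℝ) 1 := by
  have h0 := len_pos K
  have h1 : ((j : ℝ) + 1) ≤ 2 ^ K := by exact_mod_cast hj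
  refine Icc_subset_Icc (by positivity) ?_
  exact (mul_le_mul_of_nonneg_right h1 h0.le).trans (len_mul K).le

theorem Up.child {h : ℝ → ℝ} {K j : ℕ} (H : Up h K j) (i : ℕ) (hi : i < 2) :
    Up h (K + 1) (2 * j + i) := by
  intro u hu
  have h0 := len_pos (K + 1)
  have h1 := len_succ K
  have hi' : (i : ℝ) ≤ 1 := by exact_mod_cast Nat.lt_succ_iff.1 hi
  have hi0 : (0 : ℝ) ≤ i := Nat.cast_nonneg i
  push_cast at hu
  have := H u ⟨by rw [h1]; nlinarith [hu.1], by rw [h1]; nlinarith [hu.2]⟩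
  linarith

theorem Good.child {h : ℝ → ℝ} {K j : ℕ} (H : Good h K j) (i : ℕ) (hi : i < 2) :
    Good h (K + 1) (2 * j + i) := H.imp (fun a => a.child i hi) fun a => a.child i hi

theorem small_of_bad {h : ℝ → ℝ} (hc : Continuous h) {K j : ℕ} (H : ¬ Good h K j) :
    ∃ u ∈ Icc ((j : ℝ) * len K) (((j : ℝ) + 1) * len K), |h u| < len K := by
  unfold Good Up at H
  push Not at H
  obtain ⟨⟨u, hu, h1⟩, w, hw, h2⟩ := H
  have h0 := len_pos K
  by_cases a : -len K < h u
  · exact ⟨u, hu, abs_lt.2 ⟨a, h1⟩⟩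
  by_cases b : h w < len K
  · exact ⟨w, hw, abs_lt.2 ⟨by linarith, b⟩⟩
  have : (0 : ℝ) ∈ uIcc (h u) (h w) := by
    rw [mem_uIcc]; left; constructor <;> linarith
  obtain ⟨x, hx, hx0⟩ := intermediate_value_uIcc hc.continuousOn this
  exact ⟨x, uIcc_subset_Icc hu hw hx, by rw [hx0, abs_zero]; exact h0⟩

open Classical in
theorem count_bad (a1 b1 a2 b2 : ℝ → ℝ)
    (ha : ∀ u, HasDerivAt a1 (a2 u) u) (hb : ∀ u, HasDerivAt b1 (b2 u) u)
    (hca : Continuous a2) (hcb : Continuous b2)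
    (hdet : ∀ u ∈ Icc (0 : ℝ) 1, a1 u * b2 u - b1 u * a2 u ≠ 0) :
    ∃ n : ℕ, ∀ v1 v2 : ℝ, |v1| + |v2| = 1 → ∀ K : ℕ,
      ((Finset.range (2 ^ K)).filter
        fun j => ¬ Good (fun u => v1 * a1 u + v2 * b1 u) K j).card ≤ n := by
  obtain ⟨c, η, hc, hη, H⟩ := expand a1 b1 a2 b2 ha hb hca hcb hdet
  have hca1 : Continuous a1 := continuous_iff_continuousAt.2 fun u => (ha u).continuousAt
  have hcb1 : Continuous b1 := continuous_iff_continuousAt.2 fun u => (hb u).continuousAt
  set m := ⌈2 / c⌉₊ + 1 with hm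
  refine ⟨⌈1 / c⌉₊ + (2 * m + 1) * (⌊1 / η⌋₊ + 1), fun v1 v2 hv K => ?_⟩
  set h : ℝ → ℝ := fun u => v1 * a1 u + v2 * b1 u with hh
  have hch : Continuous h := by simp only [hh]; fun_prop
  have h0 := len_pos K
  rcases lt_or_ge c (len K) with hlt | hle
  · refine le_trans (Finset.card_filter_le _ _) (le_trans ?_ (Nat.le_add_right _ _))
    rw [Finset.card_range]
    have h1 : ((2 ^ K : ℕ) : ℝ) ≤ 1 / c := by
      push_cast
      rw [le_div_iff₀ hc, ← len_mul K]
      gcongr
    exact_mod_cast h1.trans (Nat.le_ceil _)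
  refine le_trans ?_ (Nat.le_add_left _ _)
  set s := (Finset.range (2 ^ K)).filter fun j => ¬ Good h K j with hs
  have hex : ∀ j, ∃ u : ℝ, j ∈ s →
      u ∈ Icc ((j : ℝ) * len K) (((j : ℝ) + 1) * len K) ∧ |h u| < len K := fun j => by
    by_cases hj : j ∈ s
    · obtain ⟨u, hu, hu'⟩ := small_of_bad hch (Finset.mem_filter.1 hj).2
      exact ⟨u, fun _ => ⟨hu, hu'⟩⟩
    · exact ⟨0, fun a => absurd a hj⟩
  choose u hu using hex
  have hunit : ∀ j ∈ s, u j ∈ Icc (0 : ℝ) 1 := fun j hj =>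
    sub_unit (Finset.mem_range.1 (Finset.mem_filter.1 hj).1) (hu j hj).1
  have key := Finset.card_le_mul_card_image_of_maps_to (s := s)
    (t := Finset.range (⌊1 / η⌋₊ + 1)) (f := fun j => ⌊u j / η⌋₊)
    (fun j hj => by
      rw [Finset.mem_range, Nat.lt_succ_iff]
      apply Nat.floor_le_floor
      gcongr
      exact (hunit j hj).2) (2 * m + 1)
    (fun b _ => by
      rcases Finset.eq_empty_or_nonempty (s.filter fun j => ⌊u j / η⌋₊ = b) with he | ⟨j0, hj0⟩
      · rw [he]; simp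
      obtain ⟨hj0s, hj0b⟩ := Finset.mem_filter.1 hj0
      have hsub : (s.filter fun j => ⌊u j / η⌋₊ = b) ⊆ Finset.Icc (j0 - m) (j0 + m) := by
        intro j hj
        obtain ⟨hjs, hjb⟩ := Finset.mem_filter.1 hj
        have p1 : 0 ≤ u j / η := div_nonneg (hunit j hjs).1 hη.le
        have p2 : 0 ≤ u j0 / η := div_nonneg (hunit j0 hj0s).1 hη.le
        have q1 := Nat.floor_le p1
        have q2 := Nat.lt_floor_add_one (u j / η)
        have q3 := Nat.floor_le p2
        have q4 := Nat.lt_floor_add_one (u j0 / η)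
        rw [hjb] at q1 q2
        rw [hj0b] at q3 q4
        have hclose : |u j - u j0| ≤ η := by
          have : |u j / η - u j0 / η| ≤ 1 := abs_le.2 ⟨by linarith, by linarith⟩
          rw [← sub_div, abs_div, abs_of_pos hη, div_le_one hη] at this
          exact this
        have hE := H v1 v2 hv (u j) (hunit j hjs) (u j0) (hunit j0 hj0s) hclose
          ((hu j hjs).2.trans_le hle)
        have hE2 : c * |u j - u j0| ≤ 2 * len K := by
          refine hE.trans ((abs_sub _ _).trans ?_)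
          have r1 := (hu j hjs).2
          have r2 := (hu j0 hj0s).2
          simp only [hh] at r1 r2
          linarith
        have hE3 : |u j - u j0| ≤ (⌈2 / c⌉₊ : ℝ) * len K := by
          have : |u j - u j0| ≤ 2 / c * len K := by
            rw [div_mul_eq_mul_div, le_div_iff₀ hc]; linarith
          exact this.trans (mul_le_mul_of_nonneg_right (Nat.le_ceil _) h0.le)
        obtain ⟨e1, e2⟩ := abs_le.1 hE3
        obtain ⟨r1, r2⟩ := (hu j hjs).1
        obtain ⟨r3, r4⟩ := (hu j0 hj0s).1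
        have t1 : (j : ℝ) ≤ j0 + (⌈2 / c⌉₊ + 1) := by
          refine le_of_mul_le_mul_right ?_ h0
          nlinarith
        have t2 : (j0 : ℝ) ≤ j + (⌈2 / c⌉₊ + 1) := by
          refine le_of_mul_le_mul_right ?_ h0
          nlinarith
        have t3 : j ≤ j0 + m := by rw [hm]; exact_mod_cast t1
        have t4 : j0 ≤ j + m := by rw [hm]; exact_mod_cast t2
        rw [Finset.mem_Icc]
        omega
      refine (Finset.card_le_card hsub).trans ?_
      rw [Nat.card_Icc]
      omega)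
  rwa [Finset.card_range] at key

end Pool.Agent.Lib.MP_108739_an
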