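import Mathlib

namespace Pool.Agent.Lib.MP_108739_an.Dc

open Finset Pointwise

/-- A ring of trigonometric polynomials with mean square, frequency support and evaluations. -/
structure Sys (R : Type) [CommRing R] where
  /-- Mean square. -/
  nrm : R → ℝ
  /-- Frequency support. -/
  sp : R → Set (ℝ × ℝ)
  /-- Points. -/
  Z : Type
  /-- Evaluation. -/
  ev : Z → R →+* ℂ
  nrm_nonneg : ∀ F, 0 ≤ nrm F
  tr : ∀ {κ : Type} (t : Finset κ) (F : R) (H : κ → R) (c : κ → ℝ),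
    (∀ z, ‖ev z F‖ ^ 2 ≤ ∑ j ∈ t, c j * ‖ev z (H j)‖ ^ 2) → nrm F ≤ ∑ j ∈ t, c j * nrm (H j)
  sp_zero : sp 0 = ∅
  sp_add : ∀ F G, sp (F + G) ⊆ sp F ∪ sp G
  sp_mul : ∀ F G, sp (F * G) ⊆ sp F + sp G
  ov : ∀ (t : Finset ℕ) (H : ℕ → R) (m : ℕ),
    (∀ k, ∀ u ⊆ t, (∀ i ∈ u, k ∈ sp (H i)) → u.card ≤ m) →
      nrm (∑ i ∈ t, H i) ≤ m * ∑ i ∈ t, nrm (H i)

/-- A convex curve with second derivative between one and two. -/
structure Cv (φ ψ : ℝ → ℝ) : Prop where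
  sub : ∀ x y, φ x + ψ x * (y - x) ≤ φ y
  low : ∀ x y, x ≤ y → y - x ≤ ψ y - ψ x
  up : ∀ x y, x ≤ y → ψ y - ψ x ≤ 2 * (y - x)

lemma Cv.taylor {φ ψ : ℝ → ℝ} (h : Cv φ ψ) (x y : ℝ) :
    φ y - φ x - ψ x * (y - x) ≤ 2 * (y - x) ^ 2 := by
  have h1 := h.sub y x
  rcases le_total x y with h2 | h2
  · nlinarith [mul_le_mul_of_nonneg_right (h.up x y h2) (sub_nonneg.2 h2)]
  · nlinarith [mul_le_mul_of_nonneg_right (h.up y x h2) (sub_nonneg.2 h2)]

/-- Frequencies in `[a, b]` within `w` of the curve. -/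
def Nb (φ : ℝ → ℝ) (a b w : ℝ) : Set (ℝ × ℝ) := {k | a ≤ k.1 ∧ k.1 ≤ b ∧ |k.2 - φ k.1| ≤ w}

variable {R : Type} [CommRing R]

/-- A family of caps with bounds for their sixth moments. -/
def Good (S : Sys R) (φ : ℝ → ℝ) (a s : ℝ) (F : ℕ → R) (w : ℕ → ℝ) (n : ℕ) : Prop :=
  ∀ i < n, 0 ≤ w i ∧ S.sp (F i) ⊆ Nb φ (a + i * s - 2 * s) (a + i * s + 3 * s) (s ^ 2) ∧
    S.nrm (F i ^ 3) ≤ w i ^ 3

/-- The decoupling inequality for `n` caps with constant `D`. -/
def Dec (n : ℕ) (D : ℝ) : Prop :=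
  ∀ (R : Type) [CommRing R] (S : Sys R) (φ ψ : ℝ → ℝ), Cv φ ψ → ∀ (a s : ℝ) (F : ℕ → R) (w : ℕ → ℝ),
    0 < s → Good S φ a s F w n →
      S.nrm ((∑ i ∈ range n, F i) ^ 3) ≤ D * (∑ i ∈ range n, w i) ^ 3

/-- The sum over the block of length `m` that starts at `p`. -/
def blk {M : Type} [AddCommMonoid M] (F : ℕ → M) (p m : ℕ) : M := ∑ i ∈ range m, F (p + i)

/-- The bilinear inequality for two blocks at distance at least `g`. -/
def Bil (n g m m' : ℕ) (B : ℝ) : Prop :=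
  ∀ (R : Type) [CommRing R] (S : Sys R) (φ ψ : ℝ → ℝ), Cv φ ψ → ∀ (a s : ℝ) (F : ℕ → R) (w : ℕ → ℝ),
    0 < s → Good S φ a s F w n → ∀ p p', p + m ≤ n → p' + m' ≤ n →
      (p + m + g ≤ p' ∨ p' + m' + g ≤ p) →
      S.nrm (blk F p m * blk F p' m' ^ 2) ≤ B * (blk w p m * blk w p' m' ^ 2)

lemma blk_mul {M : Type} [AddCommMonoid M] (F : ℕ → M) (p r m : ℕ) :
    blk F p (r * m) = ∑ j ∈ range r, blk F (p + j * m) m := by
  induction r with
  | zero => simp [blk]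
  | succ r ih =>
    rw [sum_range_succ, ← ih, blk, blk, blk, add_mul, one_mul, sum_range_add]
    simp only [add_assoc]

variable {S : Sys R} {φ ψ : ℝ → ℝ} {a s : ℝ} {F : ℕ → R} {w : ℕ → ℝ} {n : ℕ}

lemma Good.blk_nonneg (h : Good S φ a s F w n) {p m : ℕ} (hp : p + m ≤ n) : 0 ≤ blk w p m :=
  sum_nonneg fun i hi => (h _ (by have := mem_range.1 hi; omega)).1

lemma Good.sp_blk (h : Good S φ a s F w n) (hs : 0 < s) {p m : ℕ} (hp : p + m ≤ n) :
    S.sp (blk F p m) ⊆ Nb φ (a + p * s - 2 * s) (a + p * s + m * s + 2 * s) (s ^ 2) := by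
  induction m with
  | zero => simp [blk, S.sp_zero]
  | succ m ih =>
    rw [blk, sum_range_succ]
    intro k hk
    rcases S.sp_add _ _ hk with h1 | h1
    · obtain ⟨h2, h3, h4⟩ := ih (by omega) h1
      exact ⟨h2, by push_cast; linarith, h4⟩
    · obtain ⟨h2, h3, h4⟩ := (h (p + m) (by omega)).2.1 h1
      push_cast at h2 h3 ⊢
      exact ⟨by nlinarith [mul_nonneg (Nat.cast_nonneg (α := ℝ) m) hs.le], by linarith, h4⟩

lemma Dec.blk {m : ℕ} {D : ℝ} (hD : Dec m D) (hc : Cv φ ψ) (hs : 0 < s) (h : Good S φ a s F w n)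
    {p : ℕ} (hp : p + m ≤ n) : S.nrm (blk F p m ^ 3) ≤ D * blk w p m ^ 3 := by
  refine hD R S φ ψ hc (a + p * s) s (fun i => F (p + i)) (fun i => w (p + i)) hs fun i hi => ?_
  have := h (p + i) (by omega)
  push_cast at this
  rwa [add_mul, ← add_assoc] at this

lemma Sys.cs (S : Sys R) (f g : R) :
    S.nrm (f * g ^ 2) ^ 2 ≤ S.nrm (g * f ^ 2) * S.nrm (g ^ 3) := by
  have key : ∀ u : ℝ, 0 ≤ S.nrm (g * f ^ 2) * (u * u) + -(2 * S.nrm (f * g ^ 2)) * u +
      S.nrm (g ^ 3) := by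
    intro u
    have h1 := S.nrm_nonneg (g * f ^ 2)
    have h2 := S.nrm_nonneg (f * g ^ 2)
    have h3 := S.nrm_nonneg (g ^ 3)
    rcases le_or_gt u 0 with hu | hu
    · nlinarith [mul_nonneg h1 (mul_self_nonneg u), mul_nonneg h2 (neg_nonneg.2 hu)]
    have := S.tr (univ : Finset Bool) (f * g ^ 2) (fun b => if b then g * f ^ 2 else g ^ 3)
      (fun b => if b then u / 2 else 1 / (2 * u)) fun z => by
        simp only [Fintype.sum_bool, if_true, Bool.false_eq_true, if_false, map_mul, map_pow,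
          norm_mul, norm_pow]
        generalize ‖S.ev z f‖ = x
        generalize ‖S.ev z g‖ = y
        have e : u / 2 * (y * x ^ 2) ^ 2 + 1 / (2 * u) * (y ^ 3) ^ 2 - (x * y ^ 2) ^ 2 =
            (u * (y * x ^ 2) - y ^ 3) ^ 2 / (2 * u) := by
          field_simp
          ring
        have : 0 ≤ (u * (y * x ^ 2) - y ^ 3) ^ 2 / (2 * u) := by positivity
        linarith
    simp only [Fintype.sum_bool, if_true, Bool.false_eq_true, if_false] at this
    have h4 := mul_le_mul_of_nonneg_left this (by positivity : 0 ≤ 2 * u)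
    have e : 2 * u * (u / 2 * S.nrm (g * f ^ 2) + 1 / (2 * u) * S.nrm (g ^ 3)) =
        S.nrm (g * f ^ 2) * (u * u) + S.nrm (g ^ 3) := by field_simp
    linarith
  have := discrim_le_zero key
  rw [discrim] at this
  linarith

lemma Sys.holder (S : Sys R) (f g : R) :
    S.nrm (f * g ^ 2) ^ 3 ≤ S.nrm (f ^ 3) * S.nrm (g ^ 3) ^ 2 := by
  have h1 := S.cs f g
  have h2 := S.cs g f
  have h3 := S.nrm_nonneg (f ^ 3)
  have h4 := S.nrm_nonneg (g ^ 3)
  rcases (S.nrm_nonneg (f * g ^ 2)).eq_or_lt with h | h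
  · rw [← h]
    simpa using mul_nonneg h3 (sq_nonneg _)
  refine le_of_mul_le_mul_left ?_ h
  have h5 := pow_le_pow_left₀ (sq_nonneg _) h1 2
  have h6 := mul_le_mul_of_nonneg_right h2 (sq_nonneg (S.nrm (g ^ 3)))
  nlinarith

lemma Dec.mono {D D' : ℝ} (h : Dec n D) (hD : D ≤ D') : Dec n D' :=
  fun R _ S φ ψ hc a s F w hs hg => (h R S φ ψ hc a s F w hs hg).trans
    (mul_le_mul_of_nonneg_right hD
      (pow_nonneg (sum_nonneg fun i hi => (hg i (mem_range.1 hi)).1) 3))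

lemma Bil.mono {g m m' : ℕ} {B B' : ℝ} (h : Bil n g m m' B) (hB : B ≤ B') : Bil n g m m' B' :=
  fun R _ S φ ψ hc a s F w hs hg p p' h1 h2 h3 =>
    (h R S φ ψ hc a s F w hs hg p p' h1 h2 h3).trans
      (mul_le_mul_of_nonneg_right hB (mul_nonneg (hg.blk_nonneg h1) (sq_nonneg _)))

lemma Dec.pad {N : ℕ} {D : ℝ} (h : Dec N D) (hn : n ≤ N) : Dec n D := by
  intro R _ S φ ψ hc a s F w hs hg
  have e : ∀ {M : Type} [AddCommMonoid M] (f : ℕ → M),
      ∑ i ∈ range N, (if i < n then f i else 0) = ∑ i ∈ range n, f i := by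
    intro M _ f
    rw [← sum_filter]
    congr 1
    ext i
    simp only [mem_filter, mem_range]
    omega
  have := h R S φ ψ hc a s (fun i => if i < n then F i else 0) (fun i => if i < n then w i else 0)
    hs fun i _ => by
      by_cases hi : i < n
      · simpa only [if_pos hi] using hg i hi
      · have := S.ov ∅ (fun _ => 0) 0 fun _ u hu _ => by simp [subset_empty.1 hu]
        simpa [if_neg hi, S.sp_zero] using this
  rwa [e, e] at this

lemma cube_sum_le {f : ℕ → ℝ} {t : Finset ℕ} (h : ∀ i ∈ t, 0 ≤ f i) (k : ℕ) :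
    ∑ i ∈ t, f i ^ (k + 1) ≤ (∑ i ∈ t, f i) ^ (k + 1) := by
  rw [pow_succ, mul_sum]
  refine sum_le_sum fun i hi => ?_
  rw [pow_succ]
  exact mul_le_mul_of_nonneg_right (pow_le_pow_left₀ (h i hi) (single_le_sum h hi) k) (h i hi)

lemma dec_triv (n : ℕ) : Dec n (n ^ 5) := by
  intro R _ S φ ψ _ a s F w _ hg
  refine (S.tr (range n) _ (fun i => F i ^ 3) (fun _ => n ^ 5) fun z => ?_).trans ?_
  · simp only [map_pow, map_sum, norm_pow, ← pow_mul, ← mul_sum]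
    have := pow_sum_le_card_mul_sum_pow (s := range n) (f := fun i => ‖S.ev z (F i)‖)
      (fun _ _ => norm_nonneg _) 5
    rw [card_range] at this
    exact (pow_le_pow_left₀ (norm_nonneg _) (norm_sum_le _ _) _).trans this
  · rw [← mul_sum]
    exact mul_le_mul_of_nonneg_left ((sum_le_sum fun i hi => (hg i (mem_range.1 hi)).2.2).trans
      (cube_sum_le (fun i hi => (hg i (mem_range.1 hi)).1) 2)) (by positivity)

lemma bil_end {g m' : ℕ} {D : ℝ} (hD : Dec m' D) (h1 : 1 ≤ D) : Bil n g 1 m' D := by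
  intro R _ S φ ψ hc a s F w hs hg p p' hp hp' _
  have w1 := hg.blk_nonneg hp
  have w2 := hg.blk_nonneg hp'
  have h2 := hD.blk hc hs hg hp'
  have h3 : S.nrm (blk F p 1 ^ 3) ≤ blk w p 1 ^ 3 := by simpa [blk] using (hg p (by omega)).2.2
  refine (pow_le_pow_iff_left₀ (S.nrm_nonneg _) (by positivity) three_ne_zero).1
    ((S.holder _ _).trans ((mul_le_mul h3 (pow_le_pow_left₀ (S.nrm_nonneg _) h2 2) (sq_nonneg _)
      (by positivity)).trans ?_))
  have h4 : D ^ 2 ≤ D ^ 3 := pow_le_pow_right₀ h1 (by norm_num)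
  have h5 := mul_le_mul_of_nonneg_right h4 (by positivity : 0 ≤ blk w p 1 ^ 3 * blk w p' m' ^ 6)
  linarith

lemma bil_swap {g m m' : ℕ} {B D E : ℝ} (hB : Bil n g m' m B) (hD : Dec m' D) (hB0 : 0 ≤ B)
    (hE : 0 ≤ E) (h : B * D ≤ E ^ 2) : Bil n g m m' E := by
  intro R _ S φ ψ hc a s F w hs hg p p' hp hp' hsep
  have w1 := hg.blk_nonneg hp
  have w2 := hg.blk_nonneg hp'
  refine (pow_le_pow_iff_left₀ (S.nrm_nonneg _) (by positivity) two_ne_zero).1
    ((S.cs _ _).trans ((mul_le_mul (hB R S φ ψ hc a s F w hs hg p' p hp' hp hsep.symm)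
      (hD.blk hc hs hg hp') (S.nrm_nonneg _) (by positivity)).trans ?_))
  have h5 := mul_le_mul_of_nonneg_right h (by positivity : 0 ≤ blk w p m ^ 2 * blk w p' m' ^ 4)
  linarith

end Pool.Agent.Lib.MP_108739_an.Dc
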