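import Pool.Agent.Lib.MP_108739_an.DecA

namespace Pool.Agent.Lib.MP_108739_an.Dc

open Finset Pointwise

variable {φ ψ : ℝ → ℝ} {n : ℕ}

lemma Cv.sepr (h : Cv φ ψ) {c x y d e : ℝ} (hd : 0 ≤ d) (he : 0 ≤ e) (hxy : x + e ≤ y)
    (hs : y + d ≤ c ∨ c + d ≤ x) : d * e ≤ |φ y - φ x - ψ c * (y - x)| := by
  rcases hs with hs | hs
  · have h1 := h.sub y x
    have h2 := h.low y c (by linarith)
    have h3 : d * e ≤ (ψ c - ψ y) * (y - x) := mul_le_mul (by linarith) (by linarith) he (by linarith)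
    exact le_abs.2 (Or.inr (by linarith))
  · have h1 := h.sub x y
    have h2 := h.low c x (by linarith)
    have h3 : d * e ≤ (ψ x - ψ c) * (y - x) := mul_le_mul (by linarith) (by linarith) he (by linarith)
    exact le_abs.2 (Or.inl (by linarith))

lemma Cv.lam (h : Cv φ ψ) {c s M : ℝ} (hM : 1 ≤ M) (hs : 0 < s) {y : ℝ × ℝ}
    (hy : y ∈ Nb φ (c - 2 * s) (c + M * s + 2 * s) (s ^ 2)) :
    -(M * s) ^ 2 ≤ y.2 - φ c - ψ c * (y.1 - c) ∧ y.2 - φ c - ψ c * (y.1 - c) ≤ 19 * (M * s) ^ 2 := by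
  obtain ⟨h1, h2, h3⟩ := hy
  obtain ⟨h3, h4⟩ := abs_le.1 h3
  have h5 := h.sub c y.1
  have h6 := h.taylor c y.1
  have h7 : s ≤ M * s := le_mul_of_one_le_left hs.le hM
  have h8 : s ^ 2 ≤ (M * s) ^ 2 := pow_le_pow_left₀ hs.le h7 2
  have h9 : (y.1 - c) ^ 2 ≤ (3 * (M * s)) ^ 2 := sq_le_sq' (by linarith) (by linarith)
  constructor <;> linarith

lemma card_le_of_diam {U : Finset ℕ} {d : ℕ} (h : ∀ i ∈ U, ∀ j ∈ U, j ≤ i + d) :
    U.card ≤ d + 1 := by
  rcases U.eq_empty_or_nonempty with rfl | hU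
  · simp
  have : U ⊆ Icc (U.min' hU) (U.min' hU + d) := fun j hj =>
    mem_Icc.2 ⟨U.min'_le j hj, h _ (U.min'_mem hU) j hj⟩
  have := card_le_card this
  rw [Nat.card_Icc] at this
  omega

lemma bil_split {u K r m2 m' : ℕ} {B : ℝ} (hu : 1 ≤ u) (hK : 1 ≤ K) (hm2 : 1 ≤ m2) (hm' : 1 ≤ m')
    (hm : m' ^ 2 ≤ K * u * m2) (hB : Bil n (6 * u) m2 m' B) :
    Bil n (6 * u) (r * m2) m' (17 * K * B) := by
  intro R _ S φ ψ hc a s F w hs hg p p' hp hp' hsep
  have hj : ∀ j ∈ range r, j * m2 + m2 ≤ r * m2 := fun j hj => by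
    have := Nat.mul_le_mul_right m2 (Nat.succ_le_of_lt (mem_range.1 hj))
    rwa [Nat.succ_mul] at this
  rw [blk_mul F, blk_mul w, sum_mul, sum_mul]
  refine (S.ov (range r) _ (17 * K) fun k U hU hk => ?_).trans ?_
  · refine (card_le_of_diam (d := 16 * K) fun i hi j hj' => ?_).trans (by omega)
    by_contra hij
    have hG := hg.sp_blk hs hp'
    have hM : (1 : ℝ) ≤ m' := by exact_mod_cast hm'
    obtain ⟨x, hx, y, hy, e1⟩ := S.sp_mul _ _ (hk i hi)
    obtain ⟨x', hx', y', hy', e2⟩ := S.sp_mul _ _ (hk j hj')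
    rw [pow_two] at hy hy'
    obtain ⟨y1, hy1, y2, hy2, rfl⟩ := S.sp_mul _ _ hy
    obtain ⟨y3, hy3, y4, hy4, rfl⟩ := S.sp_mul _ _ hy'
    have l1 := hc.lam hM hs (hG hy1)
    have l2 := hc.lam hM hs (hG hy2)
    have l3 := hc.lam hM hs (hG hy3)
    have l4 := hc.lam hM hs (hG hy4)
    have b1 := hj i (hU hi)
    have b2 := hj j (hU hj')
    obtain ⟨x1, x2, x3⟩ := hg.sp_blk hs (p := p + i * m2) (m := m2) (by omega) hx
    obtain ⟨x4, x5, x6⟩ := hg.sp_blk hs (p := p + j * m2) (m := m2) (by omega) hx'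
    obtain ⟨x3, x3'⟩ := abs_le.1 x3
    obtain ⟨x6, x6'⟩ := abs_le.1 x6
    have e3 : x.1 + (y1.1 + y2.1) = x'.1 + (y3.1 + y4.1) := congrArg Prod.fst (e1.trans e2.symm)
    have e4 : x.2 + (y1.2 + y2.2) = x'.2 + (y3.2 + y4.2) := congrArg Prod.snd (e1.trans e2.symm)
    have c1 : i * m2 + m2 + 4 + 12 * (K * m2) ≤ j * m2 := by
      have h1 := Nat.mul_le_mul_right m2 (Nat.succ_le_of_lt (not_le.1 hij))
      have h2 : m2 ≤ K * m2 := Nat.le_mul_of_pos_left _ hK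
      rw [Nat.succ_mul, add_mul, mul_assoc] at h1
      omega
    have c2 : (i : ℝ) * m2 + m2 + 4 + 12 * (K * m2) ≤ j * m2 := by exact_mod_cast c1
    have c3 := mul_le_mul_of_nonneg_right c2 hs.le
    have hu' : (1 : ℝ) ≤ u := by exact_mod_cast hu
    have hus : s ≤ u * s := le_mul_of_one_le_left hs.le hu'
    push_cast at x1 x2 x4 x5
    have key := hc.sepr (c := a + p' * s) (x := x.1) (y := x'.1) (d := 4 * (u * s))
      (e := 12 * (K * m2) * s) (by positivity) (by positivity) (by linarith) (by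
        rcases hsep with h | h
        · have h1 : p + j * m2 + m2 + 6 * u ≤ p' := by omega
          have h2 : (p : ℝ) + j * m2 + m2 + 6 * u ≤ p' := by exact_mod_cast h1
          have h3 := mul_le_mul_of_nonneg_right h2 hs.le
          exact Or.inl (by linarith)
        · have h1 : p' + 6 * u ≤ p + i * m2 := by omega
          have h2 : (p' : ℝ) + 6 * u ≤ p + i * m2 := by exact_mod_cast h1
          have h3 := mul_le_mul_of_nonneg_right h2 hs.le
          exact Or.inr (by linarith))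
    have c4 : (m' : ℝ) ^ 2 ≤ K * u * m2 := by exact_mod_cast hm
    have c5 := mul_le_mul_of_nonneg_right c4 (sq_nonneg s)
    have c6 : s ^ 2 ≤ (m' * s) ^ 2 := pow_le_pow_left₀ hs.le (le_mul_of_one_le_left hs.le hM) 2
    have c7 : 0 < s ^ 2 := by positivity
    have e5 : ψ (a + p' * s) * (x'.1 - x.1) = ψ (a + p' * s) * (y1.1 + y2.1 - y3.1 - y4.1) := by
      congr 1
      linarith
    have c8 : |φ x'.1 - φ x.1 - ψ (a + p' * s) * (x'.1 - x.1)| ≤ 42 * (m' * s) ^ 2 := by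
      rw [e5]
      exact abs_le.2 ⟨by linarith [l1.1, l2.1, l3.2, l4.2], by linarith [l1.2, l2.2, l3.1, l4.1]⟩
    linarith
  · rw [mul_assoc, mul_sum _ _ B]
    push_cast
    refine mul_le_mul_of_nonneg_left (sum_le_sum fun j hj' => ?_) (by positivity)
    have := hj j hj'
    exact hB R S φ ψ hc a s F w hs hg _ _ (by omega) hp' (by omega)

/-- The coefficients of the broad-narrow inequality. -/
def cf (K : ℕ) (q : ℕ × ℕ) : ℝ :=
  if q.1 = q.2 then 14 ^ 6 else if q.1 + 7 ≤ q.2 ∨ q.2 + 7 ≤ q.1 then K ^ 8 else 0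

lemma cf_nonneg (K : ℕ) (q : ℕ × ℕ) : 0 ≤ cf K q := by
  unfold cf
  split_ifs <;> positivity

lemma broad (K : ℕ) (z : ℕ → ℂ) :
    ‖∑ i ∈ range K, z i‖ ^ 6 ≤ ∑ q ∈ range K ×ˢ range K, cf K q * ‖z q.1 * z q.2 ^ 2‖ ^ 2 := by
  rcases Nat.eq_zero_or_pos K with rfl | hK
  · simp
  obtain ⟨i0, hi0, hmax⟩ := exists_max_image (range K) (fun i => ‖z i‖) ⟨0, mem_range.2 hK⟩
  have hK' : (0 : ℝ) < K := by exact_mod_cast hK
  have one : ∀ i ∈ range K, cf K (i, i0) * ‖z i * z i0 ^ 2‖ ^ 2 ≤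
      ∑ q ∈ range K ×ˢ range K, cf K q * ‖z q.1 * z q.2 ^ 2‖ ^ 2 := fun i hi =>
    single_le_sum (f := fun q : ℕ × ℕ => cf K q * ‖z q.1 * z q.2 ^ 2‖ ^ 2)
      (fun q _ => mul_nonneg (cf_nonneg K q) (sq_nonneg _)) (mem_product.2 ⟨hi, hi0⟩)
  have h0 := norm_nonneg (z i0)
  by_cases h : ∃ i ∈ range K, (i + 7 ≤ i0 ∨ i0 + 7 ≤ i) ∧ ‖z i0‖ ≤ K * ‖z i‖
  · obtain ⟨i, hi, h1, h2⟩ := h
    refine le_trans ?_ (one i hi)
    have h3 : ‖∑ i ∈ range K, z i‖ ≤ K * ‖z i0‖ := by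
      simpa using (norm_sum_le _ _).trans (sum_le_card_nsmul _ _ _ hmax)
    have h4 := pow_le_pow_left₀ (norm_nonneg _) h3 6
    have h5 := mul_le_mul_of_nonneg_right (pow_le_pow_left₀ h0 h2 2)
      (by positivity : 0 ≤ (K : ℝ) ^ 6 * ‖z i0‖ ^ 4)
    rw [cf, if_neg (by omega), if_pos h1, norm_mul, norm_pow]
    linarith
  · refine le_trans ?_ (one i0 hi0)
    have h1 : ∀ i ∈ range K, ‖z i‖ ≤ (if i ∈ Icc (i0 - 6) (i0 + 6) then ‖z i0‖ else 0) +
        ‖z i0‖ / K := fun i hi => by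
      split_ifs with h2
      · exact (hmax i hi).trans (le_add_of_nonneg_right (by positivity))
      · rw [mem_Icc] at h2
        have h3 : ¬‖z i0‖ ≤ K * ‖z i‖ := fun h3 => h ⟨i, hi, by omega, h3⟩
        rw [zero_add, le_div_iff₀ hK']
        linarith
    have h2 := (norm_sum_le _ _).trans (sum_le_sum h1)
    rw [sum_add_distrib, sum_ite_mem, sum_const, sum_const, card_range, nsmul_eq_mul, nsmul_eq_mul,
      mul_div_cancel₀ _ hK'.ne'] at h2
    have h3 : (range K ∩ Icc (i0 - 6) (i0 + 6)).card ≤ 13 :=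
      (card_le_card inter_subset_right).trans (by rw [Nat.card_Icc]; omega)
    have h4 : ((range K ∩ Icc (i0 - 6) (i0 + 6)).card : ℝ) ≤ 13 := by exact_mod_cast h3
    have h5 : ‖∑ i ∈ range K, z i‖ ≤ 14 * ‖z i0‖ := by
      linarith [mul_le_mul_of_nonneg_right h4 h0]
    have h6 := pow_le_pow_left₀ (norm_nonneg _) h5 6
    rw [cf, if_pos rfl, norm_mul, norm_pow]
    linarith

lemma dec_step {K m : ℕ} {D B : ℝ} (hD : Dec m D) (hB : Bil (K * m) (6 * m) m m B) (hD0 : 0 ≤ D)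
    (hB0 : 0 ≤ B) : Dec (K * m) (14 ^ 6 * D + K ^ 8 * B) := by
  intro R _ S φ ψ hc a s F w hs hg
  have e : ∀ {M : Type} [AddCommMonoid M] (f : ℕ → M),
      ∑ i ∈ range (K * m), f i = ∑ j ∈ range K, blk f (j * m) m := fun f => by
    simpa [blk] using blk_mul f 0 K m
  have hj : ∀ j ∈ range K, j * m + m ≤ K * m := fun j hj => by
    have := Nat.mul_le_mul_right m (Nat.succ_le_of_lt (mem_range.1 hj))
    rwa [Nat.succ_mul] at this
  have hw : ∀ j ∈ range K, 0 ≤ blk w (j * m) m := fun j h => hg.blk_nonneg (hj j h)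
  rw [e F, e w]
  refine (S.tr (range K ×ˢ range K) _ (fun q => blk F (q.1 * m) m * blk F (q.2 * m) m ^ 2) (cf K)
    fun z => ?_).trans ?_
  · simpa only [map_pow, map_sum, map_mul, norm_pow, ← pow_mul] using
      broad K fun j => S.ev z (blk F (j * m) m)
  refine (sum_le_sum (g := fun q : ℕ × ℕ => (14 ^ 6 * D + K ^ 8 * B) *
    (blk w (q.1 * m) m * blk w (q.2 * m) m ^ 2)) fun q hq => ?_).trans ?_
  · obtain ⟨h1, h2⟩ := mem_product.1 hq
    have w1 := hw _ h1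
    have w2 := hw _ h2
    have p1 : 0 ≤ 14 ^ 6 * D * (blk w (q.1 * m) m * blk w (q.2 * m) m ^ 2) := by positivity
    have p2 : 0 ≤ K ^ 8 * B * (blk w (q.1 * m) m * blk w (q.2 * m) m ^ 2) := by positivity
    unfold cf
    split_ifs with h3 h3'
    · have := hD.blk hc hs hg (hj _ h2)
      rw [h3] at p2 ⊢
      rw [← pow_succ']
      linarith
    · have := hB R S φ ψ hc a s F w hs hg _ _ (hj _ h1) (hj _ h2) (h3'.imp
        (fun h => by have := Nat.mul_le_mul_right m h; rw [add_mul] at this; omega)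
        (fun h => by have := Nat.mul_le_mul_right m h; rw [add_mul] at this; omega))
      have := mul_le_mul_of_nonneg_left this (by positivity : 0 ≤ (K : ℝ) ^ 8)
      linarith
    · linarith
  · rw [← mul_sum, sum_product]
    dsimp only
    rw [← sum_mul_sum, pow_succ' _ 2]
    exact mul_le_mul_of_nonneg_left (mul_le_mul_of_nonneg_left (cube_sum_le hw 1) (sum_nonneg hw))
      (by positivity)

end Pool.Agent.Lib.MP_108739_an.Dc
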