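import Pool.Agent.Lib.MP_108739_an.DecB

namespace Pool.Agent.Lib.MP_108739_an.Dc

open Finset Pointwise

/-- Decoupling with exponent `η`. -/
def Ex (η : ℝ) : Prop := ∃ C : ℝ, 1 ≤ C ∧ ∀ n : ℕ, 1 ≤ n → Dec n (C * (n : ℝ) ^ η)

lemma Ex.mono {η η' : ℝ} (h : Ex η) (h' : η ≤ η') : Ex η' := by
  obtain ⟨C, h1, h2⟩ := h
  exact ⟨C, h1, fun n hn => (h2 n hn).mono (mul_le_mul_of_nonneg_left
    (Real.rpow_le_rpow_of_exponent_le (by exact_mod_cast hn) h') (by linarith))⟩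

lemma pow_sub_rpow (K : ℕ) {P q : ℕ} (h : q ≤ P) (η : ℝ) :
    ((K ^ (P - q) : ℕ) : ℝ) ^ η = (K : ℝ) ^ (η * P - η * q) := by
  rw [Nat.cast_pow, ← Real.rpow_natCast, ← Real.rpow_mul (Nat.cast_nonneg _), Nat.cast_sub h]
  congr 1
  ring

lemma chain_step {η C e : ℝ} {K P q N : ℕ} (hC : 1 ≤ C) (hK : 1 ≤ K) (hq : 1 ≤ q) (hP : 4 * q ≤ P)
    (H : ∀ n : ℕ, 1 ≤ n → Dec n (C * (n : ℝ) ^ η))
    (h : Bil N (6 * K ^ (P - 1)) (K ^ (P - 4 * q)) (K ^ (P - 2 * q)) (17 * C * (K : ℝ) ^ (η * P - e))) :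
    Bil N (6 * K ^ (P - 1)) (K ^ (P - 2 * q)) (K ^ (P - q))
      (17 * C * (K : ℝ) ^ (η * P - (e + η * q - 1) / 2)) := by
  have hK' : (0 : ℝ) < K := by exact_mod_cast hK
  have h1 := bil_split (K := K) (r := K ^ (3 * q)) (Nat.one_le_pow _ _ hK) hK
    (Nat.one_le_pow _ _ hK) (Nat.one_le_pow _ _ hK) (by
      rw [← pow_mul, ← pow_succ', ← pow_add]
      exact Nat.pow_le_pow_right hK (by omega)) h
  rw [← pow_add, show 3 * q + (P - 4 * q) = P - q by omega] at h1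
  refine bil_swap h1 (H _ (Nat.one_le_pow _ _ hK)) (by positivity) (by positivity) (le_of_eq ?_)
  have e1 : ((K : ℝ) ^ (η * P - (e + η * q - 1) / 2)) ^ 2 =
      K * (K : ℝ) ^ (η * P - e) * (K : ℝ) ^ (η * P - η * q) := by
    rw [pow_two, ← Real.rpow_add hK', mul_assoc, ← Real.rpow_add hK', mul_comm (K : ℝ),
      ← Real.rpow_add_one hK'.ne']
    congr 1
    ring
  rw [pow_sub_rpow K (by omega), mul_pow, e1]
  ring

lemma chain {η C : ℝ} {K r N : ℕ} (hC : 1 ≤ C) (hη : 0 ≤ η) (hK : 1 ≤ K)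
    (H : ∀ n : ℕ, 1 ≤ n → Dec n (C * (n : ℝ) ^ η)) (t : ℕ) : ∀ j, j + t = r →
      Bil N (6 * K ^ (2 ^ (r + 1) - 1)) (K ^ (2 ^ (r + 1) - 2 * 2 ^ j)) (K ^ (2 ^ (r + 1) - 2 ^ j))
        (17 * C * (K : ℝ) ^ (η * (2 ^ (r + 1) : ℕ) - (η * 2 ^ j * t / 2 - 1))) := by
  have hK' : (1 : ℝ) ≤ K := by exact_mod_cast hK
  induction t with
  | zero =>
    rintro j rfl
    rw [add_zero, show 2 ^ (j + 1) - 2 * 2 ^ j = 0 by omega, pow_zero]
    have h1 : (1 : ℝ) ≤ ((K ^ (2 ^ (j + 1) - 2 ^ j) : ℕ) : ℝ) ^ η :=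
      Real.one_le_rpow (by exact_mod_cast Nat.one_le_pow _ _ hK) hη
    refine (bil_end (H _ (Nat.one_le_pow _ _ hK)) (one_le_mul_of_one_le_of_one_le hC h1)).mono ?_
    rw [pow_sub_rpow K (P := 2 ^ (j + 1)) (Nat.pow_le_pow_right (by norm_num) (Nat.le_succ j))]
    refine mul_le_mul (by linarith) (Real.rpow_le_rpow_of_exponent_le hK' ?_) (by positivity)
      (by positivity)
    have : 0 ≤ η * (2 ^ j : ℕ) := by positivity
    generalize 2 ^ (j + 1) = P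
    push_cast at this ⊢
    linarith
  | succ t ih =>
    intro j hj
    have h1 := ih (j + 1) (by omega)
    have h2 : 2 ^ j * 2 ^ 2 ≤ 2 ^ (r + 1) := by
      rw [← pow_add]
      exact Nat.pow_le_pow_right (by norm_num) (by omega)
    rw [show 2 * 2 ^ (j + 1) = 4 * 2 ^ j by omega, show 2 ^ (j + 1) = 2 * 2 ^ j by omega] at h1
    have h3 := chain_step hC hK Nat.one_le_two_pow (by omega) H h1
    convert h3 using 4
    push_cast
    ring

lemma exists_root {n P : ℕ} (hn : 1 ≤ n) (hP : 1 ≤ P) :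
    ∃ K, 1 ≤ K ∧ n ≤ K ^ P ∧ K ^ P ≤ 2 ^ P * n := by
  have h : ∃ K, n ≤ K ^ P := ⟨n, Nat.le_self_pow (by omega) n⟩
  have h1 := Nat.find_spec h
  have h2 := @Nat.find_min _ _ h
  generalize Nat.find h = K at h1 h2
  rcases K with _ | _ | K
  · rw [zero_pow (by omega)] at h1
    omega
  · exact ⟨1, le_rfl, h1, by
      rw [one_pow]
      exact Nat.mul_pos (Nat.two_pow_pos P) hn⟩
  · refine ⟨_, by omega, h1, (Nat.pow_le_pow_left (by omega : K + 1 + 1 ≤ 2 * (K + 1)) P).trans ?_⟩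
    rw [mul_pow]
    exact Nat.mul_le_mul_left _ (not_le.1 (h2 (Nat.lt_succ_self _))).le

lemma improve {ε η : ℝ} {r : ℕ} (h0 : 0 < ε) (h1 : ε ≤ 1) (hr : 22 ≤ ε * r) (hη : ε ≤ η)
    (h : Ex η) : Ex (η - ε / (2 ^ (r + 1) : ℕ)) := by
  obtain ⟨C, hC, H⟩ := h
  have hP : 2 ≤ 2 ^ (r + 1) := by have := Nat.one_le_two_pow (n := r); omega
  have key : ∀ K : ℕ, 1 ≤ K → Dec (K ^ 2 ^ (r + 1))
      ((14 ^ 6 + 289) * C * (K : ℝ) ^ (η * (2 ^ (r + 1) : ℕ) - ε)) := fun K hK => by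
    have h2 := chain (N := K * K ^ (2 ^ (r + 1) - 1)) hC (by linarith) hK H r 0 (zero_add r)
    generalize 2 ^ (r + 1) = P at hP h2 ⊢
    have hK' : (1 : ℝ) ≤ K := by exact_mod_cast hK
    have hK0 : (0 : ℝ) < K := by linarith
    simp only [pow_zero, mul_one] at h2
    have e1 : K * K ^ (P - 2) = K ^ (P - 1) := by
      rw [← pow_succ', show P - 2 + 1 = P - 1 by omega]
    have h3 := bil_split (K := K) (r := K) (Nat.one_le_pow _ _ hK) hK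
      (Nat.one_le_pow _ _ hK) (Nat.one_le_pow _ _ hK) (by
        rw [mul_right_comm, e1, pow_two]) h2
    rw [e1] at h3
    have h4 := dec_step (H _ (Nat.one_le_pow _ _ hK)) h3 (by positivity) (by positivity)
    rw [← pow_succ', show P - 1 + 1 = P by omega, pow_sub_rpow K (by omega)] at h4
    refine h4.mono ?_
    have a1 : (K : ℝ) ^ (η * P - η * (1 : ℕ)) ≤ (K : ℝ) ^ (η * P - ε) :=
      Real.rpow_le_rpow_of_exponent_le hK' (by push_cast; linarith)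
    have a2 : (K : ℝ) ^ 9 * (K : ℝ) ^ (η * P - (η * r / 2 - 1)) ≤ (K : ℝ) ^ (η * P - ε) := by
      rw [← Real.rpow_natCast, ← Real.rpow_add hK0]
      refine Real.rpow_le_rpow_of_exponent_le hK' ?_
      have := mul_le_mul_of_nonneg_right hη (Nat.cast_nonneg (α := ℝ) r)
      push_cast
      linarith
    have a3 := mul_le_mul_of_nonneg_left a1 (by linarith : 0 ≤ C)
    have a4 := mul_le_mul_of_nonneg_left a2 (by linarith : 0 ≤ C)
    generalize (K : ℝ) ^ (η * P - ε) = x at a3 a4 ⊢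
    generalize (K : ℝ) ^ (η * P - η * (1 : ℕ)) = y at a3 ⊢
    generalize (K : ℝ) ^ (η * P - (η * r / 2 - 1)) = z at a4 ⊢
    linarith
  generalize 2 ^ (r + 1) = P at hP key ⊢
  have hP' : (1 : ℝ) ≤ P := by exact_mod_cast (by omega : 1 ≤ P)
  have hx : 0 ≤ η - ε / P := sub_nonneg.2 ((div_le_self h0.le hP').trans hη)
  have b1 : (1 : ℝ) ≤ ((2 : ℝ) ^ P) ^ (η - ε / P) :=
    Real.one_le_rpow (one_le_pow₀ one_le_two) hx
  refine ⟨(14 ^ 6 + 289) * C * ((2 : ℝ) ^ P) ^ (η - ε / P),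
    one_le_mul_of_one_le_of_one_le (by linarith) b1, fun n hn => ?_⟩
  obtain ⟨K, k1, k2, k3⟩ := exists_root hn (by omega : 1 ≤ P)
  refine ((key K k1).pad k2).mono ?_
  have e2 : η * P - ε = P * (η - ε / P) := by field_simp
  rw [mul_assoc _ _ ((n : ℝ) ^ _), ← Real.mul_rpow (by positivity) (by positivity), e2,
    Real.rpow_mul (Nat.cast_nonneg _), Real.rpow_natCast]
  exact mul_le_mul_of_nonneg_left (Real.rpow_le_rpow (by positivity) (by exact_mod_cast k3) hx)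
    (by positivity)

lemma ex_small {ε : ℝ} (h0 : 0 < ε) (h1 : ε ≤ 1) : Ex ε := by
  obtain ⟨r, hr⟩ := exists_nat_ge (22 / ε)
  rw [div_le_iff₀' h0] at hr
  have hd : 0 < ε / (2 ^ (r + 1) : ℕ) := by positivity
  have key : ∀ t : ℕ, Ex (5 - t * (ε / (2 ^ (r + 1) : ℕ))) ∨ Ex ε := fun t => by
    induction t with
    | zero =>
      refine Or.inl ⟨1, le_rfl, fun n _ => (dec_triv n).mono (le_of_eq ?_)⟩
      rw [Nat.cast_zero, zero_mul, sub_zero, one_mul, ← Real.rpow_natCast]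
      norm_num
    | succ t ih =>
      rcases ih with h | h
      · rcases le_total ε (5 - t * (ε / (2 ^ (r + 1) : ℕ))) with h2 | h2
        · refine Or.inl ((improve h0 h1 hr h2 h).mono (le_of_eq ?_))
          push_cast
          ring
        · exact Or.inr (h.mono h2)
      · exact Or.inr h
  obtain ⟨t, ht⟩ := exists_nat_ge (5 / (ε / (2 ^ (r + 1) : ℕ)))
  rw [div_le_iff₀ hd] at ht
  exact (key t).elim (fun h => h.mono (by linarith)) id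

/-- The decoupling theorem. -/
theorem dec_main {ε : ℝ} (h0 : 0 < ε) :
    ∃ C : ℝ, 1 ≤ C ∧ ∀ n : ℕ, 1 ≤ n → Dec n (C * (n : ℝ) ^ ε) :=
  (ex_small (lt_min h0 one_pos) (min_le_right _ _)).mono (min_le_left _ _)

lemma cube_weight {t : Finset ℕ} {w N : ℕ → ℝ} (hw : ∀ i ∈ t, 0 ≤ w i) (hN : ∀ i ∈ t, 0 < N i) :
    (∑ i ∈ t, w i) ^ 3 ≤ (∑ i ∈ t, N i) ^ 2 * ∑ i ∈ t, w i ^ 3 / N i ^ 2 := by
  rcases t.eq_empty_or_nonempty with rfl | ht
  · simp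
  have hs : 0 < ∑ i ∈ t, N i := sum_pos hN ht
  have h := Real.pow_arith_mean_le_arith_mean_pow t (fun i => N i / ∑ j ∈ t, N j)
    (fun i => w i / N i) (fun i hi => div_nonneg (hN i hi).le hs.le)
    (by rw [← sum_div, div_self hs.ne']) (fun i hi => div_nonneg (hw i hi) (hN i hi).le) 3
  have e1 : ∑ i ∈ t, (N i / ∑ j ∈ t, N j) * (w i / N i) = (∑ i ∈ t, w i) / ∑ j ∈ t, N j := by
    rw [sum_div]
    refine sum_congr rfl fun i hi => ?_
    have := (hN i hi).ne'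
    field_simp
  have e2 : ∑ i ∈ t, (N i / ∑ j ∈ t, N j) * (w i / N i) ^ 3 =
      (∑ i ∈ t, w i ^ 3 / N i ^ 2) / ∑ j ∈ t, N j := by
    rw [sum_div]
    refine sum_congr rfl fun i hi => ?_
    have := (hN i hi).ne'
    field_simp
  rw [e1, e2, div_pow, div_le_div_iff₀ (by positivity) hs] at h
  exact le_of_mul_le_mul_right (by linarith) hs

/-- The weighted form of decoupling. -/
theorem Dec.weighted {n : ℕ} {D : ℝ} (hD : Dec n D) (hD0 : 0 ≤ D) {R : Type} [CommRing R]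
    (S : Sys R) {φ ψ : ℝ → ℝ} (hc : Cv φ ψ) {a s : ℝ} (hs : 0 < s) (F : ℕ → R) (N : ℕ → ℝ)
    (hN : ∀ i < n, 0 < N i)
    (hF : ∀ i < n, S.sp (F i) ⊆ Nb φ (a + i * s - 2 * s) (a + i * s + 3 * s) (s ^ 2)) :
    S.nrm ((∑ i ∈ range n, F i) ^ 3) ≤
      D * ((∑ i ∈ range n, N i) ^ 2 * ∑ i ∈ range n, S.nrm (F i ^ 3) / N i ^ 2) := by
  have e : ∀ i, (S.nrm (F i ^ 3) ^ ((3 : ℕ) : ℝ)⁻¹) ^ 3 = S.nrm (F i ^ 3) := fun i =>
    Real.rpow_inv_natCast_pow (S.nrm_nonneg _) three_ne_zero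
  have h0 : ∀ i, 0 ≤ S.nrm (F i ^ 3) ^ ((3 : ℕ) : ℝ)⁻¹ := fun i =>
    Real.rpow_nonneg (S.nrm_nonneg _) _
  refine (hD R S φ ψ hc a s F (fun i => S.nrm (F i ^ 3) ^ ((3 : ℕ) : ℝ)⁻¹) hs
    fun i hi => ⟨h0 i, hF i hi, (e i).ge⟩).trans (mul_le_mul_of_nonneg_left ?_ hD0)
  simpa only [e] using cube_weight (t := range n)
    (w := fun i => S.nrm (F i ^ 3) ^ ((3 : ℕ) : ℝ)⁻¹) (fun i _ => h0 i)
    fun i hi => hN i (mem_range.1 hi)

end Pool.Agent.Lib.MP_108739_an.Dc
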