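import Pool.Agent.Lib.MP_108739_an.Piece

/-! Whitney type decomposition along the fold and summation. -/

namespace Pool.Agent.Lib.MP_108739_an

open MeasureTheory Set Function Complex Filter
open scoped ENNReal Topology

theorem sum_two {M : Type*} [AddCommMonoid M] (f : ℕ → M) (m : ℕ) :
    ∑ i ∈ Finset.range (2 * m), f i = ∑ j ∈ Finset.range m, (f (2 * j) + f (2 * j + 1)) := by
  induction m with
  | zero => simp
  | succ m ih =>
    rw [Finset.sum_range_succ, ← ih, Nat.mul_succ, Finset.sum_range_succ, Finset.sum_range_succ,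
      add_assoc]

/-- The integral over the dyadic interval `(K, j)`. -/
noncomputable def pie (g : ℝ → ℂ) (K j : ℕ) : ℂ :=
  ∫ u in ((j : ℝ) * len K)..((j : ℝ) * len K + len K), g u

theorem sub_unit' {K j : ℕ} (hj : j < 2 ^ K) :
    Icc ((j : ℝ) * len K) ((j : ℝ) * len K + len K) ⊆ Icc (0 : ℝ) 1 := by
  have := sub_unit hj
  rwa [add_one_mul] at this

theorem pie_split {g : ℝ → ℂ} (hg : IntervalIntegrable g volume 0 1) {K j : ℕ} (hj : j < 2 ^ K) :
    pie g K j = pie g (K + 1) (2 * j) + pie g (K + 1) (2 * j + 1) := by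
  have hi : ∀ i : ℕ, i < 2 ^ (K + 1) → IntervalIntegrable g volume ((i : ℝ) * len (K + 1))
      ((i : ℝ) * len (K + 1) + len (K + 1)) := fun i hi => hg.mono_set (by
    rw [uIcc_of_le (by linarith [len_pos (K + 1)]), uIcc_of_le zero_le_one]
    exact sub_unit' hi)
  have h1 := hi (2 * j) (by rw [pow_succ]; omega)
  have h2 := hi (2 * j + 1) (by rw [pow_succ]; omega)
  have e1 : ((2 * j + 1 : ℕ) : ℝ) * len (K + 1) = ((2 * j : ℕ) : ℝ) * len (K + 1) + len (K + 1) := by
    push_cast; ring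
  unfold pie
  rw [e1] at h2 ⊢
  rw [intervalIntegral.integral_add_adjacent_intervals h1 h2, len_succ K]
  congr 1 <;> push_cast <;> ring

open Classical in
theorem pointwise (h : ℝ → ℝ) (g : ℝ → ℂ) (hg : IntervalIntegrable g volume 0 1) (n : ℕ)
    (hn : ∀ K, ((Finset.range (2 ^ K)).filter fun j => ¬ Good h K j).card ≤ n)
    (ρ S : ℝ) (hρ0 : 0 ≤ ρ) (hρ1 : ρ < 1) (hS : 0 ≤ S)
    (hgood : ∀ K, ∀ j < 2 ^ K, Good h K j → ‖pie g K j‖ ≤ S * ρ ^ K)
    (ε : ℕ → ℝ) (hε : Tendsto ε atTop (𝓝 0)) (hsmall : ∀ K, ∀ j < 2 ^ K, ‖pie g K j‖ ≤ ε K) :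
    ‖∫ u in (0 : ℝ)..1, g u‖ ≤ S * (1 + 2 * n * (1 - ρ)⁻¹) := by
  set b : ℕ → ℕ → ℂ := fun K j => if Good h K j then 0 else pie g K j with hb
  set R : ℕ → ℂ := fun K => ∑ j ∈ Finset.range (2 ^ K), b K j with hR
  have hsum : ∀ (K : ℕ) (x : ℕ → ℂ) (M : ℝ), 0 ≤ M → (∀ j < 2 ^ K, Good h K j → x j = 0) →
      (∀ j < 2 ^ K, ¬ Good h K j → ‖x j‖ ≤ M) →
      ‖∑ j ∈ Finset.range (2 ^ K), x j‖ ≤ n * M := fun K x M hM h0 h1 => by
    rw [← Finset.sum_filter_of_ne (p := fun j => ¬ Good h K j)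
      (fun j hj hx hG => hx (h0 j (Finset.mem_range.1 hj) hG))]
    refine (norm_sum_le _ _).trans ((Finset.sum_le_card_nsmul _ _ M fun j hj => ?_).trans ?_)
    · exact h1 j (Finset.mem_range.1 (Finset.mem_filter.1 hj).1) (Finset.mem_filter.1 hj).2
    · rw [nsmul_eq_mul]
      gcongr
      exact_mod_cast hn K
  have hstep : ∀ K, ‖R K - R (K + 1)‖ ≤ n * (2 * S * ρ ^ K) := fun K => by
    have e : R (K + 1) = ∑ j ∈ Finset.range (2 ^ K), (b (K + 1) (2 * j) + b (K + 1) (2 * j + 1)) := by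
      simp only [hR]
      rw [pow_succ', sum_two]
    rw [e]
    simp only [hR]
    rw [← Finset.sum_sub_distrib]
    refine hsum K _ _ (by positivity) (fun j _ hG => ?_) fun j hj hG => ?_
    · have c0 : Good h (K + 1) (2 * j) := hG.child 0 two_pos
      have c1 : Good h (K + 1) (2 * j + 1) := hG.child 1 one_lt_two
      simp only [hb, if_pos hG, if_pos c0, if_pos c1]
      simp
    · have c : ∀ i < 2 ^ (K + 1), ‖pie g (K + 1) i - b (K + 1) i‖ ≤ S * ρ ^ K := fun i hi => by
        simp only [hb]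
        split_ifs with hi'
        · rw [sub_zero]
          refine (hgood _ i hi hi').trans ?_
          gcongr ?_ * ?_
          exact pow_le_pow_of_le_one hρ0 hρ1.le (Nat.le_succ K)
        · rw [sub_self, norm_zero]; positivity
      have c0 := c (2 * j) (by rw [pow_succ]; omega)
      have c1 := c (2 * j + 1) (by rw [pow_succ]; omega)
      have e2 : b K j - (b (K + 1) (2 * j) + b (K + 1) (2 * j + 1)) =
          (pie g (K + 1) (2 * j) - b (K + 1) (2 * j)) +
            (pie g (K + 1) (2 * j + 1) - b (K + 1) (2 * j + 1)) := by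
        have : b K j = pie g K j := by simp only [hb, if_neg hG]
        rw [this, pie_split hg hj]; ring
      rw [e2]
      refine (norm_add_le _ _).trans ?_
      linarith
  have hind : ∀ K, ‖R 0‖ ≤ ‖R K‖ + n * (2 * S) * ∑ k ∈ Finset.range K, ρ ^ k := fun K => by
    induction K with
    | zero => simp
    | succ K ih =>
      have h1 := hstep K
      have h2 : ‖R K‖ ≤ ‖R (K + 1)‖ + ‖R K - R (K + 1)‖ := norm_le_insert' _ _
      rw [Finset.sum_range_succ]
      linarith
  have hgeo : ∀ K, ∑ k ∈ Finset.range K, ρ ^ k ≤ (1 - ρ)⁻¹ := fun K => by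
    rw [← tsum_geometric_of_lt_one hρ0 hρ1]
    exact (summable_geometric_of_lt_one hρ0 hρ1).sum_le_tsum _ fun _ _ => by positivity
  have hRK : ∀ K, ‖R K‖ ≤ n * ε K := fun K =>
    hsum K _ _ ((norm_nonneg _).trans (hsmall K 0 (by positivity)))
      (fun j _ hG => by simp only [hb, if_pos hG])
      fun j hj hG => by simp only [hb, if_neg hG]; exact hsmall K j hj
  have hR0 : ‖R 0‖ ≤ n * 0 + n * (2 * S) * (1 - ρ)⁻¹ := by
    refine ge_of_tendsto' ((hε.const_mul (n : ℝ)).add_const _) fun K => ?_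
    refine (hind K).trans (add_le_add (hRK K) ?_)
    gcongr
    exact hgeo K
  have e0 : (∫ u in (0 : ℝ)..1, g u) = pie g 0 0 := by simp [pie, len]
  have hp : 0 ≤ n * (2 * S) * (1 - ρ)⁻¹ := by
    have : 0 < 1 - ρ := by linarith
    positivity
  rw [e0]
  by_cases hG : Good h 0 0
  · have := hgood 0 0 (by norm_num) hG
    rw [pow_zero] at this
    linarith
  · have : R 0 = pie g 0 0 := by simp [hR, hb, hG]
    rw [← this]
    linarith

theorem sum_pieces (F : ℝ → ℝ≥0∞) (l : ℝ) (hl : 0 ≤ l) (m : ℕ) :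
    ∑ j ∈ Finset.range m, ∫⁻ u in Ioc ((j : ℝ) * l) ((j : ℝ) * l + l), F u =
      ∫⁻ u in Ioc 0 ((m : ℝ) * l), F u := by
  induction m with
  | zero => simp
  | succ m ih =>
    rw [Finset.sum_range_succ, ih, ← lintegral_union measurableSet_Ioc (Ioc_disjoint_Ioc_of_le le_rfl),
      Ioc_union_Ioc_eq_Ioc (by positivity) (by linarith)]
    push_cast
    rw [add_one_mul]

theorem closed_good (a1 b1 : ℝ → ℝ) (ε l : ℝ) (J : Set ℝ) :
    IsClosed {x : ℝ | ∀ u ∈ J, l ≤ ε * dir a1 b1 x u} := by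
  simp only [ofPred_forall]
  refine isClosed_iInter fun u => isClosed_iInter fun _ => isClosed_le continuous_const ?_
  unfold dir
  have : ∀ x : ℝ, 1 + |x| ≠ 0 := fun x => by positivity
  fun_prop (disch := exact this _)

theorem main_real {a b a1 b1 a2 b2 : ℝ → ℝ} {L : ℝ} (H : Curve a b a1 b1 a2 b2 L)
    (hdet : ∀ u ∈ Icc (0 : ℝ) 1, a1 u * b2 u - b1 u * a2 u ≠ 0) (B p q : ℝ)
    (hp : 2 ≤ p) (hpq : p ≤ q) (hq : 2 < q) (hδ : 0 < q - 2 - q / p) :
    ∃ C : ℝ≥0∞, C ≠ ∞ ∧ ∀ (γ σ : ℝ → ℝ) (A : Set ℝ) (f : ℝ → ℂ), Measurable γ → Measurable σ →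
      MeasurableSet A → (∀ s ∈ A, ∀ t ∈ A, ∃ m ∈ uIcc (σ s) (σ t),
        |γ t - γ s - m * (t - s)| ≤ B * √(1 + |t - s|)) → Measurable f →
      ∫⁻ u in Ioc (0 : ℝ) 1, ‖f u‖ₑ ^ p ≠ ∞ →
      ∫⁻ t in A, ‖∫ u in (0 : ℝ)..1, wave a b γ t u * f u‖ₑ ^ q ≤
        C * (∫⁻ u in Ioc (0 : ℝ) 1, ‖f u‖ₑ ^ p) ^ (q / p) := by
  classical
  obtain ⟨n, hn⟩ := count_bad a1 b1 a2 b2 H.da1 H.db1 H.ca H.cb hdet
  have hp0 : 0 < p := by linarith
  have hq0 : 0 < q := by linarith
  set δ := q - 2 - q / p with hδ'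
  set ρ : ℝ := (1 / 2) ^ (δ / (2 * q)) with hρ
  set s : ℝ := (1 / 2) ^ (δ / 2) with hs
  have hρ0 : 0 < ρ := by positivity
  have hρ1 : ρ < 1 := Real.rpow_lt_one (by norm_num) (by norm_num) (by positivity)
  have hs0 : 0 < s := by positivity
  have hs1 : s < 1 := Real.rpow_lt_one (by norm_num) (by norm_num) (by positivity)
  have hρs : ∀ K : ℕ, (ρ ^ K) ^ q = s ^ K := fun K => by
    rw [← Real.rpow_natCast, ← Real.rpow_mul hρ0.le, mul_comm, Real.rpow_mul hρ0.le,
      Real.rpow_natCast, hρ, ← Real.rpow_mul (by norm_num)]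
    congr 2
    field_simp
  have hls : ∀ K : ℕ, len K ^ δ = s ^ K * s ^ K := fun K => by
    rw [← mul_pow, hs, ← Real.rpow_add (by norm_num), add_halves, len, ← Real.rpow_natCast,
      ← Real.rpow_mul (by norm_num), mul_comm, Real.rpow_mul (by norm_num), Real.rpow_natCast]
  set c1 : ℝ := 1 + 2 * n * (1 - ρ)⁻¹ with hc1
  have hc10 : 0 ≤ c1 := by
    have : 0 < 1 - ρ := by linarith
    positivity
  set c2 : ℝ≥0∞ := ENNReal.ofReal (kc L B ^ (q / 2)) * cq q with hc2
  have hc2t : c2 ≠ ∞ := ENNReal.mul_ne_top ENNReal.ofReal_ne_top (cq_ne_top hq)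
  have hgeo : ∑' K : ℕ, ENNReal.ofReal (s ^ K) ≠ ∞ := by
    rw [← ENNReal.ofReal_tsum_of_nonneg (fun K => by positivity)
      (summable_geometric_of_lt_one hs0.le hs1)]
    exact ENNReal.ofReal_ne_top
  refine ⟨ENNReal.ofReal (c1 ^ q) * (2 * c2 * ∑' K : ℕ, ENNReal.ofReal (s ^ K)),
    ENNReal.mul_ne_top ENNReal.ofReal_ne_top
      (ENNReal.mul_ne_top (ENNReal.mul_ne_top (by norm_num) hc2t) hgeo),
    fun γ σ A f hγ hσ hA hch hf hN => ?_⟩
  set N := ∫⁻ u in Ioc (0 : ℝ) 1, ‖f u‖ₑ ^ p with hNdef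
  have ham : Measurable a :=
    (continuous_iff_continuousAt.2 fun u => (H.da u).continuousAt).measurable
  have hbm : Measurable b :=
    (continuous_iff_continuousAt.2 fun u => (H.db u).continuousAt).measurable
  have hw := measurable_wave ham hbm hγ
  have hfi : IntegrableOn f (Ioc (0 : ℝ) 1) := by
    refine ⟨hf.aestronglyMeasurable, ?_⟩
    have := holder (Ioc (0 : ℝ) 1) f hf 1 p one_pos (by linarith)
    simp only [ENNReal.rpow_one, Real.volume_Ioc, sub_zero, ENNReal.ofReal_one, ENNReal.one_rpow,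
      one_mul] at this
    exact this.trans_lt (ENNReal.rpow_lt_top_of_nonneg (by positivity) hN)
  have hsubI : ∀ {K j : ℕ}, j < 2 ^ K →
      Ioc ((j : ℝ) * len K) ((j : ℝ) * len K + len K) ⊆ Ioc (0 : ℝ) 1 := fun {K j} hj =>
    Ioc_subset_Ioc (sub_unit' hj ⟨le_rfl, by linarith [len_pos K]⟩).1
      (sub_unit' hj ⟨by linarith [len_pos K], le_rfl⟩).2
  set g : ℝ → ℝ → ℂ := fun t u => wave a b γ t u * f u with hg
  have hgi : ∀ t, IntervalIntegrable (g t) volume 0 1 := fun t => by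
    rw [intervalIntegrable_iff_integrableOn_Ioc_of_le zero_le_one]
    exact Integrable.bdd_mul hfi (hw.of_uncurry_left).aestronglyMeasurable
      (ae_of_all _ fun u => (norm_wave _ _ _ _ _).le)
  have hPm : ∀ K j, Measurable fun t => pie (g t) K j := fun K j => by
    unfold pie
    simp_rw [intervalIntegral.integral_of_le (le_add_of_nonneg_right (len_pos K).le)]
    have : StronglyMeasurable (uncurry g) :=
      (Measurable.mul hw (hf.comp measurable_snd)).stronglyMeasurable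
    exact this.integral_prod_right.measurable
  set I : ℝ → ℕ → ℕ → Set ℝ := fun ε K j => A ∩ σ ⁻¹' {x : ℝ |
    ∀ u ∈ Icc ((j : ℝ) * len K) ((j : ℝ) * len K + len K), len K ≤ ε * dir a1 b1 x u} with hI
  have hIm : ∀ ε K j, MeasurableSet (I ε K j) := fun ε K j =>
    hA.inter (hσ (closed_good _ _ _ _ _).measurableSet)
  set τ : ℕ → ℕ → ℝ → ℝ≥0∞ := fun K j t =>
    (I 1 K j).indicator (fun t => ‖pie (g t) K j‖ₑ ^ q) t +
      (I (-1) K j).indicator (fun t => ‖pie (g t) K j‖ₑ ^ q) t with hτ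
  have hτm : ∀ K j, Measurable (τ K j) := fun K j =>
    (((hPm K j).enorm.pow_const q).indicator (hIm _ _ _)).add
      (((hPm K j).enorm.pow_const q).indicator (hIm _ _ _))
  set Sg : ℝ → ℝ≥0∞ := fun t =>
    ∑' K : ℕ, ENNReal.ofReal ((s ^ K)⁻¹) * ∑ j ∈ Finset.range (2 ^ K), τ K j t with hSg
  have hterm : ∀ K, Measurable fun t =>
      ENNReal.ofReal ((s ^ K)⁻¹) * ∑ j ∈ Finset.range (2 ^ K), τ K j t := fun K =>
    (Finset.measurable_fun_sum _ fun j _ => hτm K j).const_mul _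
  -- pointwise bound
  have hpt : ∀ t ∈ A, ‖∫ u in (0 : ℝ)..1, g t u‖ₑ ^ q ≤ ENNReal.ofReal (c1 ^ q) * Sg t := by
    intro t ht
    rcases eq_or_ne (Sg t) ∞ with htop | htop
    · have : 1 ≤ c1 := by
        have : 0 < 1 - ρ := by linarith
        rw [hc1]; exact le_add_of_nonneg_right (by positivity)
      rw [htop, ENNReal.mul_top (ENNReal.ofReal_pos.2 (by positivity)).ne']
      exact le_top
    set S := (Sg t).toReal ^ (1 / q) with hS
    have hSq : S ^ q = (Sg t).toReal := by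
      rw [hS, ← Real.rpow_mul ENNReal.toReal_nonneg, one_div_mul_cancel hq0.ne', Real.rpow_one]
    have key := pointwise (dir a1 b1 (σ t)) (g t) (hgi t) n
      (hn (1 / (1 + |σ t|)) (σ t / (1 + |σ t|)) (by
        rw [abs_div, abs_div, abs_one, abs_of_pos (by positivity : 0 < 1 + |σ t|)]
        field_simp)) ρ S hρ0.le hρ1 (by positivity)
      (fun K j hj hG => by
        have h1 : ‖pie (g t) K j‖ₑ ^ q ≤ τ K j t := by
          rcases hG with hG | hG
          · have : t ∈ I 1 K j := ⟨ht, fun u hu => by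
              rw [one_mul]; exact hG u (by rwa [add_one_mul])⟩
            simp only [hτ, indicator_of_mem this]
            exact le_self_add
          · have : t ∈ I (-1) K j := ⟨ht, fun u hu => by
              rw [neg_one_mul]; exact hG u (by rwa [add_one_mul])⟩
            simp only [hτ, indicator_of_mem this]
            exact le_add_self
        have h2 : ENNReal.ofReal ((s ^ K)⁻¹) * ‖pie (g t) K j‖ₑ ^ q ≤ Sg t := by
          refine le_trans ?_ (ENNReal.le_tsum K)
          gcongr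
          exact h1.trans (Finset.single_le_sum (f := fun j => τ K j t) (fun _ _ => zero_le)
            (Finset.mem_range.2 hj))
        rw [← ofReal_norm, ENNReal.ofReal_rpow_of_nonneg (norm_nonneg _) hq0.le,
          ← ENNReal.ofReal_mul (by positivity), ENNReal.ofReal_le_iff_le_toReal htop,
          inv_mul_le_iff₀ (by positivity), ← hSq, ← hρs, ← Real.mul_rpow (by positivity)
            (by positivity), Real.rpow_le_rpow_iff (norm_nonneg _) (by positivity) hq0] at h2
        rwa [mul_comm])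
      (fun K => ((1 / 2 : ℝ) ^ (1 - 1 / p)) ^ K * N.toReal ^ (1 / p))
      (by
        have := (tendsto_pow_atTop_nhds_zero_of_lt_one (r := (1 / 2 : ℝ) ^ (1 - 1 / p))
          (by positivity) (Real.rpow_lt_one (by norm_num) (by norm_num) (by
            rw [sub_pos, div_lt_one hp0]; linarith))).mul_const (N.toReal ^ (1 / p))
        rwa [zero_mul] at this)
      (fun K j hj => by
        have h1 := holder (Ioc ((j : ℝ) * len K) ((j : ℝ) * len K + len K)) f hf 1 p one_pos
          (by linarith)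
        simp only [ENNReal.rpow_one, Real.volume_Ioc, add_sub_cancel_left] at h1
        have h2 : ‖pie (g t) K j‖ₑ ≤ ENNReal.ofReal (len K) ^ (1 - 1 / p) * N ^ (1 / p) := by
          unfold pie
          rw [intervalIntegral.integral_of_le (le_add_of_nonneg_right (len_pos K).le)]
          refine (enorm_integral_le_lintegral_enorm _).trans (le_trans (le_of_eq ?_) (h1.trans ?_))
          · refine lintegral_congr fun u => ?_
            simp only [hg]
            rw [enorm_mul, ← ofReal_norm, norm_wave, ENNReal.ofReal_one, one_mul]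
          · gcongr
            exact lintegral_mono_set (hsubI hj)
        rw [← ofReal_norm, ← ENNReal.ofReal_toReal hN, ENNReal.ofReal_rpow_of_pos (len_pos K),
          ENNReal.ofReal_rpow_of_nonneg ENNReal.toReal_nonneg (by positivity),
          ← ENNReal.ofReal_mul (Real.rpow_nonneg (len_pos K).le _),
          ENNReal.ofReal_le_ofReal_iff (mul_nonneg (Real.rpow_nonneg (len_pos K).le _)
            (by positivity))] at h2
        refine h2.trans (le_of_eq ?_)
        congr 1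
        rw [len, ← Real.rpow_natCast, ← Real.rpow_mul (by norm_num), mul_comm,
          Real.rpow_mul (by norm_num), Real.rpow_natCast])
    rw [← ofReal_norm, ENNReal.ofReal_rpow_of_nonneg (norm_nonneg _) hq0.le,
      ← ENNReal.ofReal_toReal htop, ← ENNReal.ofReal_mul (by positivity), ← hSq,
      ← Real.mul_rpow hc10 (by positivity)]
    refine ENNReal.ofReal_le_ofReal (Real.rpow_le_rpow (norm_nonneg _) ?_ hq0.le)
    rwa [mul_comm]
  -- integrated bound
  have hpiece : ∀ ε : ℝ, |ε| = 1 → ∀ K j, j < 2 ^ K →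
      ∫⁻ t, (I ε K j).indicator (fun t => ‖pie (g t) K j‖ₑ ^ q) t ≤
        c2 * ENNReal.ofReal (s ^ K * s ^ K) * N ^ (q / p - 1) *
          ∫⁻ u in Ioc ((j : ℝ) * len K) ((j : ℝ) * len K + len K), ‖f u‖ₑ ^ p := by
    intro ε hε K j hj
    rw [lintegral_indicator (hIm _ _ _)]
    refine (piece_bound H B γ σ hγ ε hε _ _ (len_pos K) (len_le_one K) (sub_unit' hj) _ (hIm ε K j)
      (fun s hs t ht => hch s hs.1 t ht.1) (fun t ht => ht.2) f hf (hfi.mono_set (hsubI hj))
      p q hp hq).trans ?_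
    have p1 : 0 ≤ q / p - 1 := by rw [sub_nonneg, one_le_div hp0]; exact hpq
    rw [← hls, mul_assoc _ (N ^ _), ← hc2, ← hδ']
    gcongr
    set X := ∫⁻ u in Ioc ((j : ℝ) * len K) ((j : ℝ) * len K + len K), ‖f u‖ₑ ^ p with hX
    have hXN : X ≤ N := lintegral_mono_set (hsubI hj)
    calc X ^ (q / p) = X ^ (q / p - 1) * X ^ (1 : ℝ) := by
          rw [← ENNReal.rpow_add_of_nonneg _ _ p1 zero_le_one, sub_add_cancel]
      _ ≤ _ := by rw [ENNReal.rpow_one]; gcongr
  have hint : ∫⁻ t, Sg t ≤ (2 * c2 * ∑' K : ℕ, ENNReal.ofReal (s ^ K)) * N ^ (q / p) := by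
    simp only [hSg]
    rw [lintegral_tsum fun K => (hterm K).aemeasurable, ← ENNReal.tsum_mul_left,
      ← ENNReal.tsum_mul_right]
    refine ENNReal.tsum_le_tsum fun K => ?_
    rw [lintegral_const_mul _ (Finset.measurable_fun_sum _ fun j _ => hτm K j),
      lintegral_finsetSum _ fun j _ => hτm K j]
    have h1 : ∑ j ∈ Finset.range (2 ^ K), ∫⁻ t, τ K j t ≤
        ∑ j ∈ Finset.range (2 ^ K), 2 * (c2 * ENNReal.ofReal (s ^ K * s ^ K) * N ^ (q / p - 1)) *
          ∫⁻ u in Ioc ((j : ℝ) * len K) ((j : ℝ) * len K + len K), ‖f u‖ₑ ^ p := by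
      refine Finset.sum_le_sum fun j hj => ?_
      simp only [hτ]
      rw [lintegral_add_left (((hPm K j).enorm.pow_const q).indicator (hIm _ _ _)), mul_assoc,
        two_mul]
      exact add_le_add (hpiece 1 abs_one K j (Finset.mem_range.1 hj))
        (hpiece (-1) (by simp) K j (Finset.mem_range.1 hj))
    rw [← Finset.mul_sum, sum_pieces _ _ (len_pos K).le, Nat.cast_pow, Nat.cast_ofNat, len_mul,
      ← hNdef] at h1
    refine (mul_le_mul_right h1 _).trans (le_of_eq ?_)
    have p1 : 0 ≤ q / p - 1 := by rw [sub_nonneg, one_le_div hp0]; exact hpq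
    have e1 : N ^ (q / p) = N ^ (q / p - 1) * N := by
      conv_rhs => rw [← ENNReal.rpow_one N, ← ENNReal.rpow_mul, one_mul,
        ← ENNReal.rpow_add_of_nonneg _ _ p1 zero_le_one, sub_add_cancel]
    have e2 : ENNReal.ofReal ((s ^ K)⁻¹) * ENNReal.ofReal (s ^ K * s ^ K) =
        ENNReal.ofReal (s ^ K) := by
      rw [← ENNReal.ofReal_mul (by positivity), inv_mul_cancel_left₀ (by positivity)]
    rw [e1, ← e2]
    ring
  calc _ ≤ ∫⁻ t in A, ENNReal.ofReal (c1 ^ q) * Sg t := setLIntegral_mono' hA hpt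
    _ ≤ ∫⁻ t, ENNReal.ofReal (c1 ^ q) * Sg t := setLIntegral_le_lintegral _ _
    _ = ENNReal.ofReal (c1 ^ q) * ∫⁻ t, Sg t := lintegral_const_mul' _ _ ENNReal.ofReal_ne_top
    _ ≤ _ := by rw [mul_assoc]; gcongr

end Pool.Agent.Lib.MP_108739_an
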