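import Mathlib

/-! First derivative test for oscillatory integrals, and the count of bad dyadic intervals. -/

namespace Pool.Agent.Lib.MP_108739_an

open MeasureTheory Set Complex

theorem first_deriv (ψ ψ1 ψ2 : ℝ → ℝ) (c d m M : ℝ) (hcd : c ≤ d) (hm : 0 < m)
    (h1 : ∀ u, HasDerivAt ψ (ψ1 u) u) (h2 : ∀ u, HasDerivAt ψ1 (ψ2 u) u) (hc : Continuous ψ2)
    (hlow : ∀ u ∈ Icc c d, m ≤ |ψ1 u|) (hM : ∀ u ∈ Icc c d, |ψ2 u| ≤ M) :
    ‖∫ u in c..d, cexp (I * (ψ u : ℂ))‖ ≤ 2 / m + (d - c) * (M / m ^ 2) := by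
  have hcψ : Continuous ψ := continuous_iff_continuousAt.2 fun u => (h1 u).continuousAt
  have hcψ1 : Continuous ψ1 := continuous_iff_continuousAt.2 fun u => (h2 u).continuousAt
  have hne : ∀ u ∈ Icc c d, ψ1 u ≠ 0 := fun u hu h => by
    have := hlow u hu
    rw [h, abs_zero] at this
    linarith
  have hneC : ∀ u ∈ Icc c d, (ψ1 u : ℂ) ≠ 0 := fun u hu => by exact_mod_cast hne u hu
  set e : ℝ → ℂ := fun u => cexp (I * (ψ u : ℂ)) with he
  have hen : ∀ u, ‖e u‖ = 1 := fun u => by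
    simp only [he]
    rw [mul_comm]
    exact Complex.norm_exp_ofReal_mul_I _
  have hce : Continuous e := by
    simp only [he]
    fun_prop
  set F : ℝ → ℂ := fun u => e u * (-I) / (ψ1 u : ℂ) with hF
  set R : ℝ → ℂ := fun u => e u * I * (ψ2 u : ℂ) / (ψ1 u : ℂ) ^ 2 with hR
  have hde : ∀ u, HasDerivAt e (e u * (I * (ψ1 u : ℂ))) u := fun u => by
    have := ((h1 u).ofReal_comp.const_mul I).cexp
    simpa [he] using this
  have hdF : ∀ u ∈ uIcc c d, HasDerivAt F (e u + R u) u := fun u hu => by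
    rw [uIcc_of_le hcd] at hu
    have h := ((hde u).mul_const (-I)).div (h2 u).ofReal_comp (hneC u hu)
    refine h.congr_deriv ?_
    simp only [hR]
    have h0 := hneC u hu
    field_simp
    ring_nf
    simp only [I_sq]
    ring
  have hcR : ContinuousOn R (uIcc c d) := by
    rw [uIcc_of_le hcd]
    simp only [hR]
    refine ContinuousOn.div (by fun_prop) (by fun_prop) fun u hu => pow_ne_zero _ (hneC u hu)
  have hiR : IntervalIntegrable R volume c d := hcR.intervalIntegrable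
  have hie : IntervalIntegrable e volume c d := hce.intervalIntegrable _ _
  have hftc := intervalIntegral.integral_eq_sub_of_hasDerivAt hdF (hie.add hiR)
  rw [intervalIntegral.integral_add hie hiR] at hftc
  have hFn : ∀ u ∈ Icc c d, ‖F u‖ ≤ 1 / m := fun u hu => by
    simp only [hF, norm_div, norm_mul, hen, norm_neg, norm_I, norm_real, Real.norm_eq_abs, mul_one]
    exact one_div_le_one_div_of_le hm (hlow u hu)
  have hRn : ‖∫ u in c..d, R u‖ ≤ M / m ^ 2 * |d - c| := by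
    refine intervalIntegral.norm_integral_le_of_norm_le_const fun u hu => ?_
    rw [uIoc_of_le hcd] at hu
    have hu' : u ∈ Icc c d := Ioc_subset_Icc_self hu
    simp only [hR, norm_div, norm_mul, hen, norm_I, norm_real, Real.norm_eq_abs, mul_one, one_mul,
      norm_pow]
    have hM0 : 0 ≤ M := (abs_nonneg _).trans (hM u hu')
    have : m ^ 2 ≤ |ψ1 u| ^ 2 := pow_le_pow_left₀ hm.le (hlow u hu') 2
    exact div_le_div₀ hM0 (hM u hu') (by positivity) this
  have heq : (∫ u in c..d, e u) = F d - F c - ∫ u in c..d, R u := by rw [← hftc]; ring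
  rw [abs_of_nonneg (sub_nonneg.2 hcd)] at hRn
  have h3 := hFn d ⟨hcd, le_rfl⟩
  have h4 := hFn c ⟨le_rfl, hcd⟩
  calc ‖∫ u in c..d, e u‖ = ‖F d - F c - ∫ u in c..d, R u‖ := by rw [heq]
    _ ≤ ‖F d‖ + ‖F c‖ + ‖∫ u in c..d, R u‖ :=
        (norm_sub_le _ _).trans (add_le_add_left (norm_sub_le _ _) _)
    _ ≤ 1 / m + 1 / m + M / m ^ 2 * (d - c) := by linarith
    _ = 2 / m + (d - c) * (M / m ^ 2) := by ring

/-- Expansion near a small value of the directional derivative. -/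
theorem expand (a1 b1 a2 b2 : ℝ → ℝ)
    (ha : ∀ u, HasDerivAt a1 (a2 u) u) (hb : ∀ u, HasDerivAt b1 (b2 u) u)
    (hca : Continuous a2) (hcb : Continuous b2)
    (hdet : ∀ u ∈ Icc (0 : ℝ) 1, a1 u * b2 u - b1 u * a2 u ≠ 0) :
    ∃ c η : ℝ, 0 < c ∧ 0 < η ∧ ∀ v1 v2 : ℝ, |v1| + |v2| = 1 →
      ∀ u ∈ Icc (0 : ℝ) 1, ∀ w ∈ Icc (0 : ℝ) 1, |u - w| ≤ η → |v1 * a1 u + v2 * b1 u| < c →
        c * |u - w| ≤ |(v1 * a1 u + v2 * b1 u) - (v1 * a1 w + v2 * b1 w)| := by
  have hca1 : Continuous a1 := continuous_iff_continuousAt.2 fun u => (ha u).continuousAt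
  have hcb1 : Continuous b1 := continuous_iff_continuousAt.2 fun u => (hb u).continuousAt
  obtain ⟨u0, hu0, hmin⟩ := (isCompact_Icc (a := (0 : ℝ)) (b := 1)).exists_isMinOn
    (f := fun u => |a1 u * b2 u - b1 u * a2 u|) ⟨0, by simp⟩ (by fun_prop)
  set d := |a1 u0 * b2 u0 - b1 u0 * a2 u0| with hd
  have hd0 : 0 < d := abs_pos.2 (hdet u0 hu0)
  obtain ⟨L0, hL0⟩ := (isCompact_Icc (a := (0 : ℝ)) (b := 1)).exists_bound_of_continuousOn
    (f := fun u => |a1 u| + |b1 u| + |a2 u| + |b2 u|) (by fun_prop)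
  set L := max L0 1 with hL
  have hL1 : 0 < L := lt_of_lt_of_le one_pos (le_max_right _ _)
  have hLb : ∀ u ∈ Icc (0 : ℝ) 1, |a1 u| + |b1 u| + |a2 u| + |b2 u| ≤ L := fun u hu => by
    have := hL0 u hu
    rw [Real.norm_eq_abs] at this
    exact ((le_abs_self _).trans this).trans (le_max_left _ _)
  set c := d / (4 * L) with hc
  have hc0 : 0 < c := by positivity
  have hua := (isCompact_Icc (a := (0 : ℝ)) (b := 1)).uniformContinuousOn_of_continuous
    hca.continuousOn
  have hub := (isCompact_Icc (a := (0 : ℝ)) (b := 1)).uniformContinuousOn_of_continuous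
    hcb.continuousOn
  obtain ⟨ηa, hηa, hA⟩ := Metric.uniformContinuousOn_iff_le.1 hua c hc0
  obtain ⟨ηb, hηb, hB⟩ := Metric.uniformContinuousOn_iff_le.1 hub c hc0
  refine ⟨c, min ηa ηb, hc0, lt_min hηa hηb, fun v1 v2 hv u hu w hw huw hsmall => ?_⟩
  set h : ℝ → ℝ := fun x => v1 * a1 x + v2 * b1 x with hh
  set h' : ℝ → ℝ := fun x => v1 * a2 x + v2 * b2 x with hh'
  have hdh : ∀ x, HasDerivAt h (h' x) x := fun x => ((ha x).const_mul v1).add ((hb x).const_mul v2)
  have hbig : 3 * c ≤ |h' u| := by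
    have e1 : v1 * (a1 u * b2 u - b1 u * a2 u) = h u * b2 u - h' u * b1 u := by
      simp only [hh, hh']; ring
    have e2 : v2 * (a1 u * b2 u - b1 u * a2 u) = h' u * a1 u - h u * a2 u := by
      simp only [hh, hh']; ring
    have hmu : d ≤ |a1 u * b2 u - b1 u * a2 u| := hmin hu
    have f1 : |v1| * |a1 u * b2 u - b1 u * a2 u| ≤ |h u| * |b2 u| + |h' u| * |b1 u| := by
      rw [← abs_mul, e1, ← abs_mul, ← abs_mul]; exact abs_sub _ _
    have f2 : |v2| * |a1 u * b2 u - b1 u * a2 u| ≤ |h' u| * |a1 u| + |h u| * |a2 u| := by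
      rw [← abs_mul, e2, ← abs_mul, ← abs_mul]; exact abs_sub _ _
    have f3 : |a1 u * b2 u - b1 u * a2 u| ≤ |h u| * L + |h' u| * L := by
      have hb := hLb u hu
      have p1 := abs_nonneg (a1 u)
      have p2 := abs_nonneg (b1 u)
      have p3 := abs_nonneg (a2 u)
      have p4 := abs_nonneg (b2 u)
      have p5 := abs_nonneg (h u)
      have p6 := abs_nonneg (h' u)
      have g1 : |h u| * (|b2 u| + |a2 u|) ≤ |h u| * L := mul_le_mul_of_nonneg_left (by linarith) p5
      have g2 : |h' u| * (|b1 u| + |a1 u|) ≤ |h' u| * L :=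
        mul_le_mul_of_nonneg_left (by linarith) p6
      calc |a1 u * b2 u - b1 u * a2 u| = (|v1| + |v2|) * |a1 u * b2 u - b1 u * a2 u| := by
            rw [hv, one_mul]
        _ ≤ _ := by nlinarith
    have hs : |h u| < c := hsmall
    have f4 : d = 4 * c * L := by rw [hc]; field_simp
    have f5 : 4 * c * L ≤ (c + |h' u|) * L := by nlinarith
    have := le_of_mul_le_mul_right f5 hL1
    linarith
  have hnear : ∀ x ∈ Icc (0 : ℝ) 1, |x - u| ≤ min ηa ηb → c ≤ |h' x| := fun x hx hxu => by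
    have g1 := hA x hx u hu (by rw [Real.dist_eq]; exact hxu.trans (min_le_left _ _))
    have g2 := hB x hx u hu (by rw [Real.dist_eq]; exact hxu.trans (min_le_right _ _))
    rw [Real.dist_eq] at g1 g2
    have g3 : |h' u - h' x| ≤ c := by
      have : h' u - h' x = -(v1 * (a2 x - a2 u) + v2 * (b2 x - b2 u)) := by simp only [hh']; ring
      rw [this, abs_neg]
      calc _ ≤ |v1 * (a2 x - a2 u)| + |v2 * (b2 x - b2 u)| := abs_add_le _ _
        _ = |v1| * |a2 x - a2 u| + |v2| * |b2 x - b2 u| := by rw [abs_mul, abs_mul]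
        _ ≤ |v1| * c + |v2| * c := by gcongr
        _ = c := by rw [← add_mul, hv, one_mul]
    have g4 := abs_sub_abs_le_abs_sub (h' u) (h' x)
    linarith
  change c * |u - w| ≤ |h u - h w|
  have hch : Continuous h := continuous_iff_continuousAt.2 fun x => (hdh x).continuousAt
  rcases lt_trichotomy u w with hlt | heq | hlt
  · obtain ⟨x, hx, hxe⟩ := exists_hasDerivAt_eq_slope h h' hlt hch.continuousOn fun x _ => hdh x
    have hx1 : x ∈ Icc (0 : ℝ) 1 := ⟨hu.1.trans hx.1.le, hx.2.le.trans hw.2⟩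
    have hx2 : |x - u| ≤ min ηa ηb := by
      refine le_trans ?_ huw
      rw [abs_of_pos (sub_pos.2 hx.1), abs_of_neg (sub_neg.2 hlt)]
      linarith [hx.2]
    have := hnear x hx1 hx2
    have e : h u - h w = h' x * (u - w) := by
      rw [hxe]; have : w - u ≠ 0 := (sub_pos.2 hlt).ne'
      field_simp; ring
    rw [e, abs_mul]
    gcongr
  · subst heq; simp
  · obtain ⟨x, hx, hxe⟩ := exists_hasDerivAt_eq_slope h h' hlt hch.continuousOn fun x _ => hdh x
    have hx1 : x ∈ Icc (0 : ℝ) 1 := ⟨hw.1.trans hx.1.le, hx.2.le.trans hu.2⟩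
    have hx2 : |x - u| ≤ min ηa ηb := by
      refine le_trans ?_ huw
      rw [abs_of_neg (sub_neg.2 hx.2), abs_of_pos (sub_pos.2 hlt)]
      linarith [hx.1]
    have := hnear x hx1 hx2
    have e : h u - h w = h' x * (u - w) := by
      rw [hxe]; have : u - w ≠ 0 := (sub_pos.2 hlt).ne'
      field_simp
    rw [e, abs_mul]
    gcongr

end Pool.Agent.Lib.MP_108739_an
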