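import Mathlib

/-! A duality bound for an integral operator with unimodular kernel. -/

namespace Pool.Agent.Lib.MP_108739_an

open MeasureTheory Set Function
open scoped ENNReal ComplexConjugate

theorem young3 (ρ : Measure ℝ) [SFinite ρ] (hρ : ρ ≤ volume) (g : ℝ → ℝ≥0∞) (hg : Measurable g)
    (k : ℝ → ℝ≥0∞) (hk : Measurable k) (q : ℝ) (hq : 2 ≤ q) :
    ∫⁻ z : ℝ × ℝ, g z.1 ^ (1 - 1 / q) * g z.2 ^ (1 - 1 / q) * k (z.1 - z.2) ∂(ρ.prod ρ) ≤
      (∫⁻ r, k r ^ (q / 2)) ^ (2 / q) * (∫⁻ t, g t ∂ρ) ^ (2 - 2 / q) := by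
  have hq0 : 0 < q := by linarith
  have p1 : 0 ≤ 1 / q := by positivity
  have p2 : 0 ≤ 1 - 2 / q := by rw [sub_nonneg, div_le_one hq0]; exact hq
  set κ := ∫⁻ r, k r ^ (q / 2) with hκ
  set Y := ∫⁻ t, g t ∂ρ with hY
  set F : Fin 3 → ℝ × ℝ → ℝ≥0∞ := ![fun z => g z.1 * k (z.1 - z.2) ^ (q / 2),
    fun z => g z.2 * k (z.1 - z.2) ^ (q / 2), fun z => g z.1 * g z.2] with hF
  set p : Fin 3 → ℝ := ![1 / q, 1 / q, 1 - 2 / q] with hp
  have m0 : Measurable fun z : ℝ × ℝ => g z.1 * k (z.1 - z.2) ^ (q / 2) := by fun_prop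
  have m1 : Measurable fun z : ℝ × ℝ => g z.2 * k (z.1 - z.2) ^ (q / 2) := by fun_prop
  have m2 : Measurable fun z : ℝ × ℝ => g z.1 * g z.2 := by fun_prop
  have H := ENNReal.lintegral_prod_norm_pow_le (μ := ρ.prod ρ) Finset.univ (f := F) (p := p)
    (fun i _ => by
      fin_cases i
      · exact m0.aemeasurable
      · exact m1.aemeasurable
      · exact m2.aemeasurable)
    (by simp only [hp, Fin.sum_univ_three]; simp; ring)
    (fun i _ => by
      fin_cases i
      · exact p1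
      · exact p1
      · exact p2)
  simp only [Fin.prod_univ_three, hF, hp, Matrix.cons_val_zero, Matrix.cons_val_one,
    Matrix.cons_val_two, Matrix.head_cons, Matrix.tail_cons] at H
  have e : ∀ a b c : ℝ≥0∞, a ^ (1 - 1 / q) * b ^ (1 - 1 / q) * c =
      (a * c ^ (q / 2)) ^ (1 / q) * (b * c ^ (q / 2)) ^ (1 / q) * (a * b) ^ (1 - 2 / q) := by
    intro a b c
    have e1 : 1 - 1 / q = 1 / q + (1 - 2 / q) := by ring
    have e2 : c = c ^ (1 / 2 : ℝ) * c ^ (1 / 2 : ℝ) := by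
      rw [← ENNReal.rpow_add_of_nonneg _ _ (by norm_num) (by norm_num)]; norm_num
    have e3 : (c ^ (q / 2)) ^ (1 / q) = c ^ (1 / 2 : ℝ) := by
      rw [← ENNReal.rpow_mul]; congr 1; field_simp
    rw [ENNReal.mul_rpow_of_nonneg _ _ p1, ENNReal.mul_rpow_of_nonneg _ _ p1,
      ENNReal.mul_rpow_of_nonneg _ _ p2, e3, e1, ENNReal.rpow_add_of_nonneg _ _ p1 p2,
      ENNReal.rpow_add_of_nonneg _ _ p1 p2]
    conv_lhs => rw [e2]
    ring
  simp_rw [e]
  refine H.trans ?_
  have i0 : ∫⁻ z : ℝ × ℝ, g z.1 * k (z.1 - z.2) ^ (q / 2) ∂(ρ.prod ρ) ≤ Y * κ := by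
    rw [lintegral_prod _ m0.aemeasurable, hY, ← lintegral_mul_const _ hg]
    refine lintegral_mono fun t => ?_
    simp only
    rw [lintegral_const_mul _ (by fun_prop)]
    gcongr
    refine (lintegral_mono' hρ le_rfl).trans (le_of_eq ?_)
    exact lintegral_sub_left_eq_self (fun r => k r ^ (q / 2)) t
  have i1 : ∫⁻ z : ℝ × ℝ, g z.2 * k (z.1 - z.2) ^ (q / 2) ∂(ρ.prod ρ) ≤ Y * κ := by
    rw [lintegral_prod_symm _ m1.aemeasurable, hY, ← lintegral_mul_const _ hg]
    refine lintegral_mono fun t => ?_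
    simp only
    rw [lintegral_const_mul _ (by fun_prop)]
    gcongr
    refine (lintegral_mono' hρ le_rfl).trans (le_of_eq ?_)
    exact lintegral_sub_right_eq_self (fun r => k r ^ (q / 2)) t
  have i2 : ∫⁻ z : ℝ × ℝ, g z.1 * g z.2 ∂(ρ.prod ρ) = Y * Y :=
    lintegral_prod_mul hg.aemeasurable hg.aemeasurable
  rw [i2]
  calc _ ≤ (Y * κ) ^ (1 / q) * (Y * κ) ^ (1 / q) * (Y * Y) ^ (1 - 2 / q) := by gcongr
    _ = κ ^ (2 / q) * Y ^ (2 - 2 / q) := by
      have e1 : 2 / q = 1 / q + 1 / q := by ring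
      have e2 : 2 - 2 / q = (1 / q + (1 - 2 / q)) + (1 / q + (1 - 2 / q)) := by ring
      rw [ENNReal.mul_rpow_of_nonneg _ _ p1, ENNReal.mul_rpow_of_nonneg _ _ p2, e2,
        ENNReal.rpow_add_of_nonneg _ _ (add_nonneg p1 p2) (add_nonneg p1 p2),
        ENNReal.rpow_add_of_nonneg _ _ p1 p2]
      conv_rhs => rw [e1, ENNReal.rpow_add_of_nonneg _ _ p1 p1]
      rw [← e1]
      ring

theorem enorm_integral_ofReal {α : Type*} [MeasurableSpace α] (μ : Measure α) (φ : α → ℝ)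
    (h0 : ∀ x, 0 ≤ φ x) (hi : Integrable φ μ) :
    ‖∫ x, (φ x : ℂ) ∂μ‖ₑ = ∫⁻ x, ENNReal.ofReal (φ x) ∂μ := by
  rw [integral_complex_ofReal, ← ofReal_integral_eq_lintegral_ofReal hi (ae_of_all _ h0),
    ← ofReal_norm, Complex.norm_real, Real.norm_eq_abs,
    abs_of_nonneg (integral_nonneg h0)]

theorem tts (ν ρ : Measure ℝ) [IsFiniteMeasure ν] [IsFiniteMeasure ρ] (hρ : ρ ≤ volume)
    (e : ℝ → ℝ → ℂ) (he : Measurable (uncurry e)) (hn : ∀ t u, ‖e t u‖ ≤ 1)
    (f : ℝ → ℂ) (hf : Measurable f) (hfi : Integrable f ν) (k : ℝ → ℝ≥0∞) (hk : Measurable k)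
    (hK : ∀ᵐ z ∂(ρ.prod ρ), ‖∫ u, e z.1 u * conj (e z.2 u) ∂ν‖ₑ ≤ k (z.1 - z.2))
    (q : ℝ) (hq : 2 < q) :
    ∫⁻ t, ‖∫ u, e t u * f u ∂ν‖ₑ ^ q ∂ρ ≤
      (∫⁻ r, k r ^ (q / 2)) * (∫⁻ u, ‖f u‖ₑ ^ (2 : ℝ) ∂ν) ^ (q / 2) := by
  have hq0 : 0 < q := by linarith
  have he' : Measurable fun z : ℝ × ℝ => e z.1 z.2 := he
  set T : ℝ → ℂ := fun t => ∫ u, e t u * f u ∂ν with hT
  have hTm : Measurable T := by
    have : StronglyMeasurable (uncurry fun t u => e t u * f u) :=
      (he'.mul (hf.comp measurable_snd)).stronglyMeasurable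
    exact this.integral_prod_right.measurable
  set B := ∫ u, ‖f u‖ ∂ν with hB
  have hTb : ∀ t, ‖T t‖ ≤ B := fun t =>
    norm_integral_le_of_norm_le hfi.norm (ae_of_all _ fun u => by
      rw [norm_mul]
      exact mul_le_of_le_one_left (norm_nonneg _) (hn t u))
  set a : ℝ → ℂ := fun t => ((‖T t‖ ^ (q - 2) : ℝ) : ℂ) * conj (T t) with ha
  have ham : Measurable a := by
    simp only [ha]
    exact (Complex.measurable_ofReal.comp (hTm.norm.pow_const _)).mul
      (Complex.continuous_conj.measurable.comp hTm)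
  have han : ∀ t, ‖a t‖ = ‖T t‖ ^ (q - 1) := fun t => by
    simp only [ha, norm_mul, Complex.norm_real, Complex.norm_conj, Real.norm_eq_abs]
    rw [abs_of_nonneg (by positivity), show q - 1 = (q - 2) + 1 by ring,
      Real.rpow_add_one' (norm_nonneg _) (by linarith)]
  have haT : ∀ t, a t * T t = ((‖T t‖ ^ q : ℝ) : ℂ) := fun t => by
    simp only [ha]
    rw [mul_assoc, Complex.conj_mul', ← Complex.ofReal_pow, ← Complex.ofReal_mul]
    congr 1
    rw [← Real.rpow_natCast, ← Real.rpow_add' (norm_nonneg _) (by push_cast; linarith)]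
    congr 1; push_cast; ring
  set A := B ^ (q - 1) with hA
  have hab : ∀ t, ‖a t‖ ≤ A := fun t => by
    rw [han]; exact Real.rpow_le_rpow (norm_nonneg _) (hTb t) (by linarith)
  have hA0 : 0 ≤ A := (norm_nonneg _).trans (hab 0)
  set G : ℝ → ℂ := fun u => ∫ t, a t * e t u ∂ρ with hG
  have hGm : Measurable G := by
    have : StronglyMeasurable (uncurry fun t u => a t * e t u) :=
      ((ham.comp measurable_fst).mul he').stronglyMeasurable
    exact this.integral_prod_left.measurable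
  have hGb : ∀ u, ‖G u‖ ≤ A * ρ.real univ := fun u =>
    norm_integral_le_of_norm_le_const (ae_of_all _ fun t => by
      rw [norm_mul]
      exact (mul_le_of_le_one_right (norm_nonneg _) (hn t u)).trans (hab t))
  set g : ℝ → ℝ≥0∞ := fun t => ‖T t‖ₑ ^ q with hg
  have hgm : Measurable g := hTm.enorm.pow_const _
  set Y := ∫⁻ t, g t ∂ρ with hY
  have hgo : ∀ t, g t = ENNReal.ofReal (‖T t‖ ^ q) := fun t => by
    simp only [hg]
    rw [← ofReal_norm, ENNReal.ofReal_rpow_of_nonneg (norm_nonneg _) hq0.le]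
  have hint : Integrable (fun t => ‖T t‖ ^ q) ρ :=
    Integrable.of_bound (hTm.norm.pow_const _).aestronglyMeasurable (B ^ q)
      (ae_of_all _ fun t => by
        rw [Real.norm_eq_abs, abs_of_nonneg (by positivity)]
        exact Real.rpow_le_rpow (norm_nonneg _) (hTb t) hq0.le)
  have hYe : Y = ‖∫ t, ((‖T t‖ ^ q : ℝ) : ℂ) ∂ρ‖ₑ := by
    rw [enorm_integral_ofReal ρ _ (fun t => by positivity) hint, hY]
    simp_rw [hgo]
  have hYtop : Y ≠ ∞ := by rw [hYe]; exact enorm_ne_top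
  -- first exchange
  have hswap : (∫ t, ((‖T t‖ ^ q : ℝ) : ℂ) ∂ρ) = ∫ u, f u * G u ∂ν := by
    have hi : Integrable (uncurry fun t u => a t * (e t u * f u)) (ρ.prod ν) := by
      refine Integrable.mono' ((integrable_const A).mul_prod hfi.norm)
        ((ham.comp measurable_fst).mul (he'.mul (hf.comp measurable_snd))).aestronglyMeasurable
        (ae_of_all _ fun z => ?_)
      simp only [uncurry, norm_mul]
      exact mul_le_mul (hab _) (mul_le_of_le_one_left (norm_nonneg _) (hn _ _)) (by positivity) hA0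
    have := integral_integral_swap hi
    simp_rw [integral_const_mul] at this
    simp_rw [← haT]
    rw [this]
    refine integral_congr_ae (ae_of_all _ fun u => ?_)
    simp only [hG]
    rw [← integral_const_mul]
    refine integral_congr_ae (ae_of_all _ fun t => ?_)
    simp only
    ring
  set Φ := ∫⁻ u, ‖f u‖ₑ ^ (2 : ℝ) ∂ν with hΦ
  set Γ := ∫⁻ u, ‖G u‖ₑ ^ (2 : ℝ) ∂ν with hΓ
  have hCS : Y ≤ Φ ^ (1 / 2 : ℝ) * Γ ^ (1 / 2 : ℝ) := by
    rw [hYe, hswap]
    refine (enorm_integral_le_lintegral_enorm _).trans ?_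
    refine le_trans (le_of_eq ?_) (ENNReal.lintegral_mul_norm_pow_le
      (hf.enorm.pow_const (2 : ℝ)).aemeasurable (hGm.enorm.pow_const (2 : ℝ)).aemeasurable
      (by norm_num) (by norm_num) (by norm_num))
    refine lintegral_congr fun u => ?_
    rw [enorm_mul, ← ENNReal.rpow_mul, ← ENNReal.rpow_mul]
    norm_num
  -- second exchange
  have hint2 : Integrable (fun u => ‖G u‖ ^ 2) ν :=
    Integrable.of_bound (hGm.norm.pow_const _).aestronglyMeasurable ((A * ρ.real univ) ^ 2)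
      (ae_of_all _ fun u => by
        rw [Real.norm_eq_abs, abs_of_nonneg (by positivity)]
        exact pow_le_pow_left₀ (norm_nonneg _) (hGb u) 2)
  have hΓe : Γ = ‖∫ u, ((‖G u‖ ^ 2 : ℝ) : ℂ) ∂ν‖ₑ := by
    rw [enorm_integral_ofReal ν _ (fun t => by positivity) hint2, hΓ]
    refine lintegral_congr fun u => ?_
    rw [← ofReal_norm, ENNReal.ofReal_rpow_of_nonneg (norm_nonneg _) (by norm_num)]
    norm_num
  have hswap2 : (∫ u, ((‖G u‖ ^ 2 : ℝ) : ℂ) ∂ν) =
      ∫ z : ℝ × ℝ, a z.1 * conj (a z.2) * ∫ u, e z.1 u * conj (e z.2 u) ∂ν ∂(ρ.prod ρ) := by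
    have hc : Measurable (fun x : ℂ => conj x) := Complex.continuous_conj.measurable
    have hi : Integrable (uncurry fun (u : ℝ) (z : ℝ × ℝ) =>
        a z.1 * conj (a z.2) * (e z.1 u * conj (e z.2 u))) (ν.prod (ρ.prod ρ)) := by
      refine Integrable.of_bound (Measurable.aestronglyMeasurable ?_) (A * A)
        (ae_of_all _ fun z => ?_)
      · exact ((ham.comp measurable_snd.fst).mul (hc.comp (ham.comp measurable_snd.snd))).mul
          ((he'.comp (measurable_snd.fst.prodMk measurable_fst)).mul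
            (hc.comp (he'.comp (measurable_snd.snd.prodMk measurable_fst))))
      · simp only [uncurry, norm_mul, Complex.norm_conj]
        calc _ ≤ A * A * (1 * 1) := by
              gcongr
              · exact hab _
              · exact hab _
              · exact hn _ _
              · exact hn _ _
          _ = A * A := by ring
    have := integral_integral_swap hi
    simp_rw [integral_const_mul] at this
    rw [← this]
    refine integral_congr_ae (ae_of_all _ fun u => ?_)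
    simp only
    rw [Complex.ofReal_pow, ← Complex.mul_conj', hG]
    simp only
    rw [← integral_conj, ← integral_prod_mul]
    refine integral_congr_ae (ae_of_all _ fun z => ?_)
    simp only [map_mul]
    ring
  set κ := ∫⁻ r, k r ^ (q / 2) with hκ
  have hae : ∀ t, ‖a t‖ₑ = g t ^ (1 - 1 / q) := fun t => by
    simp only [hg]
    rw [← ENNReal.rpow_mul, ← ofReal_norm, han, ← ofReal_norm,
      ENNReal.ofReal_rpow_of_nonneg (norm_nonneg _)
        (by rw [mul_sub, mul_one_div_cancel hq0.ne']; linarith)]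
    congr 2
    field_simp
  have hΓb : Γ ≤ κ ^ (2 / q) * Y ^ (2 - 2 / q) := by
    rw [hΓe, hswap2]
    refine (enorm_integral_le_lintegral_enorm _).trans ?_
    refine le_trans (lintegral_mono_ae ?_) (young3 ρ hρ g hgm k hk q hq.le)
    filter_upwards [hK] with z hz
    rw [enorm_mul, enorm_mul, RCLike.enorm_conj, hae, hae]
    gcongr
  have p1 : 0 ≤ 1 - 1 / q := by rw [sub_nonneg, div_le_one hq0]; linarith
  have hfin : Y ≤ Φ ^ (1 / 2 : ℝ) * κ ^ (1 / q) * Y ^ (1 - 1 / q) := by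
    refine hCS.trans ?_
    rw [mul_assoc]
    gcongr
    refine (ENNReal.rpow_le_rpow hΓb (by norm_num)).trans (le_of_eq ?_)
    rw [ENNReal.mul_rpow_of_nonneg _ _ (by norm_num), ← ENNReal.rpow_mul, ← ENNReal.rpow_mul]
    congr 2 <;> ring
  rcases eq_or_ne Y 0 with h0 | h0
  · rw [h0]; exact zero_le
  have hsplit : Y = Y ^ (1 / q) * Y ^ (1 - 1 / q) := by
    rw [← ENNReal.rpow_add_of_nonneg _ _ (by positivity) p1]; norm_num
  have hY1 : Y ^ (1 / q) ≤ Φ ^ (1 / 2 : ℝ) * κ ^ (1 / q) := by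
    refine (ENNReal.mul_le_mul_iff_left (c := Y ^ (1 - 1 / q)) ?_ ?_).1 ?_
    · exact (ENNReal.rpow_pos (pos_iff_ne_zero.2 h0) hYtop).ne'
    · exact ENNReal.rpow_ne_top_of_nonneg p1 hYtop
    · rw [← hsplit]; exact hfin
  have := ENNReal.rpow_le_rpow hY1 hq0.le
  rw [ENNReal.mul_rpow_of_nonneg _ _ hq0.le, ← ENNReal.rpow_mul, ← ENNReal.rpow_mul,
    ← ENNReal.rpow_mul, one_div_mul_cancel hq0.ne', ENNReal.rpow_one, ENNReal.rpow_one,
    mul_comm, show 1 / 2 * q = q / 2 by ring] at this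
  exact this

end Pool.Agent.Lib.MP_108739_an
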