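import Pool.Agent.Lib.MP_108739_an.Count
import Pool.Agent.Lib.MP_108739_an.TT

/-! The bound for one dyadic arc on the set of times for which it is good. -/

namespace Pool.Agent.Lib.MP_108739_an

open MeasureTheory Set Function Complex
open scoped ENNReal ComplexConjugate

/-- The data of a `C^2` curve with a bound on the first two derivatives. -/
structure Curve (a b a1 b1 a2 b2 : ℝ → ℝ) (L : ℝ) : Prop where
  da : ∀ u, HasDerivAt a (a1 u) u
  db : ∀ u, HasDerivAt b (b1 u) u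
  da1 : ∀ u, HasDerivAt a1 (a2 u) u
  db1 : ∀ u, HasDerivAt b1 (b2 u) u
  ca : Continuous a2
  cb : Continuous b2
  hb1 : ∀ u ∈ Icc (0 : ℝ) 1, |b1 u| ≤ L
  ha2 : ∀ u ∈ Icc (0 : ℝ) 1, |a2 u| ≤ L
  hb2 : ∀ u ∈ Icc (0 : ℝ) 1, |b2 u| ≤ L

/-- The plane wave at the point `(t, γ t)`. -/
noncomputable def wave (a b γ : ℝ → ℝ) (t u : ℝ) : ℂ := cexp (I * ((t * a u + γ t * b u : ℝ) : ℂ))

/-- The normalised derivative of the curve in the direction `(1, x)`. -/
noncomputable def dir (a1 b1 : ℝ → ℝ) (x : ℝ) (u : ℝ) : ℝ :=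
  1 / (1 + |x|) * a1 u + x / (1 + |x|) * b1 u

theorem norm_wave (a b γ : ℝ → ℝ) (t u : ℝ) : ‖wave a b γ t u‖ = 1 := by
  unfold wave
  rw [mul_comm]
  exact Complex.norm_exp_ofReal_mul_I _

theorem wave_mul_conj (a b γ : ℝ → ℝ) (t s u : ℝ) :
    wave a b γ t u * conj (wave a b γ s u) =
      cexp (I * (((t - s) * a u + (γ t - γ s) * b u : ℝ) : ℂ)) := by
  unfold wave
  rw [← Complex.exp_conj, ← Complex.exp_add]
  congr 1
  simp only [map_mul, Complex.conj_I, Complex.conj_ofReal]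
  push_cast
  ring

theorem cone (a1 b1 : ℝ → ℝ) (ε x y m u l : ℝ) (hl : 0 ≤ l) (hm : m ∈ uIcc x y)
    (hx : l ≤ ε * dir a1 b1 x u) (hy : l ≤ ε * dir a1 b1 y u) :
    (1 + |m|) * l ≤ ε * (a1 u + m * b1 u) := by
  rw [← segment_eq_uIcc] at hm
  obtain ⟨α, β, hα, hβ, hαβ, rfl⟩ := hm
  simp only [smul_eq_mul]
  have px : 0 < 1 + |x| := by positivity
  have py : 0 < 1 + |y| := by positivity
  have ex : (1 + |x|) * l ≤ ε * (a1 u + x * b1 u) := by
    have : ε * (a1 u + x * b1 u) = (1 + |x|) * (ε * dir a1 b1 x u) := by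
      unfold dir; field_simp
    rw [this]; gcongr
  have ey : (1 + |y|) * l ≤ ε * (a1 u + y * b1 u) := by
    have : ε * (a1 u + y * b1 u) = (1 + |y|) * (ε * dir a1 b1 y u) := by
      unfold dir; field_simp
    rw [this]; gcongr
  have e1 : |α * x + β * y| ≤ α * |x| + β * |y| := by
    refine (abs_add_le _ _).trans (le_of_eq ?_)
    rw [abs_mul, abs_mul, abs_of_nonneg hα, abs_of_nonneg hβ]
  have e2 : ε * (a1 u + (α * x + β * y) * b1 u) =
      α * (ε * (a1 u + x * b1 u)) + β * (ε * (a1 u + y * b1 u)) := by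
    have : β = 1 - α := by linarith
    rw [this]; ring
  have e3 : (1 + |α * x + β * y|) * l ≤ α * ((1 + |x|) * l) + β * ((1 + |y|) * l) := by
    have : α * ((1 + |x|) * l) + β * ((1 + |y|) * l) = ((α + β) + (α * |x| + β * |y|)) * l := by
      ring
    rw [this, hαβ]; gcongr
  rw [e2]
  refine e3.trans ?_
  gcongr

/-- The constant in the kernel bound. -/
noncomputable def kc (L B : ℝ) : ℝ := 8 * (L + 2) + 2 + 8 * (B * L) ^ 2

theorem kernel_bound {a b a1 b1 a2 b2 : ℝ → ℝ} {L : ℝ} (H : Curve a b a1 b1 a2 b2 L)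
    (B : ℝ) (γ : ℝ → ℝ) (ε : ℝ) (hε : |ε| = 1) (c l : ℝ) (hl : 0 < l) (hl1 : l ≤ 1)
    (hJ : Icc c (c + l) ⊆ Icc (0 : ℝ) 1) (t s x y m : ℝ) (hm : m ∈ uIcc x y)
    (hr : |γ t - γ s - m * (t - s)| ≤ B * √(1 + |t - s|))
    (hx : ∀ u ∈ Icc c (c + l), l ≤ ε * dir a1 b1 x u)
    (hy : ∀ u ∈ Icc c (c + l), l ≤ ε * dir a1 b1 y u) :
    ‖∫ u in c..(c + l), wave a b γ t u * conj (wave a b γ s u)‖ ≤
      kc L B * l * (1 + l ^ 2 * |t - s|)⁻¹ := by
  have hL : 0 ≤ L := (abs_nonneg _).trans (H.hb1 0 ⟨le_rfl, zero_le_one⟩)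
  set X := l ^ 2 * |t - s| with hX
  have hX0 : 0 ≤ X := by positivity
  rw [← div_eq_mul_inv, le_div_iff₀ (by positivity)]
  rcases lt_or_ge X (8 * (B * L) ^ 2 + 1) with hlt | hge
  · have h1 : ‖∫ u in c..(c + l), wave a b γ t u * conj (wave a b γ s u)‖ ≤ 1 * |c + l - c| :=
      intervalIntegral.norm_integral_le_of_norm_le_const fun u _ => by
        rw [norm_mul, Complex.norm_conj, norm_wave, norm_wave, mul_one]
    rw [add_sub_cancel_left, abs_of_pos hl, one_mul] at h1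
    calc _ ≤ l * (1 + (8 * (B * L) ^ 2 + 1)) := by gcongr
      _ ≤ kc L B * l := by unfold kc; nlinarith
  have hX1 : 1 ≤ X := le_trans (by nlinarith [sq_nonneg (B * L)]) hge
  set Δ := |t - s| with hΔ
  have hΔ0 : 0 ≤ Δ := abs_nonneg _
  have hl2 : l ^ 2 ≤ 1 := pow_le_one₀ hl.le hl1
  have hΔ1 : 1 ≤ Δ := by nlinarith
  set r := γ t - γ s - m * (t - s) with hr'
  set D := Δ * (1 + |m|) with hD
  have hDΔ : Δ ≤ D := by rw [hD]; nlinarith [abs_nonneg m]
  have hD0 : 0 < D := by linarith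
  have hrL : |r| * L ≤ D * l / 2 := by
    have h1 : |r| * L ≤ |B * L| * √(1 + Δ) := by
      calc |r| * L ≤ B * √(1 + Δ) * L := by gcongr
        _ = B * L * √(1 + Δ) := by ring
        _ ≤ _ := by gcongr; exact le_abs_self _
    have h2 : |B * L| * √(1 + Δ) ≤ Δ * l / 2 := by
      refine abs_le_of_sq_le_sq' ?_ (by positivity) |>.2
      rw [mul_pow, Real.sq_sqrt (by positivity), sq_abs]
      have h3 : (B * L) ^ 2 * (1 + Δ) ≤ (B * L) ^ 2 * (2 * Δ) := by gcongr; linarith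
      have h4 : 8 * (B * L) ^ 2 * Δ ≤ X * Δ := by gcongr; linarith
      rw [hX] at h4
      nlinarith
    have h3 : Δ * l / 2 ≤ D * l / 2 := by gcongr
    linarith
  simp_rw [wave_mul_conj]
  have key := first_deriv (fun u => (t - s) * a u + (γ t - γ s) * b u)
    (fun u => (t - s) * a1 u + (γ t - γ s) * b1 u) (fun u => (t - s) * a2 u + (γ t - γ s) * b2 u)
    c (c + l) (D * l / 2) (D * (L + 1)) (by linarith) (by positivity)
    (fun u => ((H.da u).const_mul _).add ((H.db u).const_mul _))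
    (fun u => ((H.da1 u).const_mul _).add ((H.db1 u).const_mul _))
    (by have := H.ca; have := H.cb; fun_prop)
    (fun u hu => by
      have h1 := cone a1 b1 ε x y m u l hl.le hm (hx u hu) (hy u hu)
      have h2 : (1 + |m|) * l ≤ |a1 u + m * b1 u| := by
        refine h1.trans ((le_abs_self _).trans (le_of_eq ?_))
        rw [abs_mul, hε, one_mul]
      have h3 : (t - s) * (a1 u + m * b1 u) =
          ((t - s) * a1 u + (γ t - γ s) * b1 u) - r * b1 u := by rw [hr']; ring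
      have h4 : Δ * |a1 u + m * b1 u| ≤
          |(t - s) * a1 u + (γ t - γ s) * b1 u| + |r| * |b1 u| := by
        rw [hΔ, ← abs_mul, h3, ← abs_mul]; exact abs_sub _ _
      have h5 : |r| * |b1 u| ≤ |r| * L := by gcongr; exact H.hb1 u (hJ hu)
      have h6 : D * l ≤ Δ * |a1 u + m * b1 u| := by rw [hD, mul_assoc]; gcongr
      linarith)
    (fun u hu => by
      have h3 : (t - s) * a2 u + (γ t - γ s) * b2 u =
          (t - s) * a2 u + (t - s) * m * b2 u + r * b2 u := by rw [hr']; ring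
      have g1 := H.ha2 u (hJ hu)
      have g2 := H.hb2 u (hJ hu)
      have h4 : D * l / 2 ≤ D := by nlinarith
      rw [h3]
      calc _ ≤ |(t - s) * a2 u| + |(t - s) * m * b2 u| + |r * b2 u| := abs_add_three _ _ _
        _ = Δ * |a2 u| + Δ * |m| * |b2 u| + |r| * |b2 u| := by simp only [abs_mul, hΔ]
        _ ≤ Δ * L + Δ * |m| * L + |r| * L := by gcongr
        _ = D * L + |r| * L := by rw [hD]; ring
        _ ≤ D * (L + 1) := by linarith)
  have e1 : 2 / (D * l / 2) + (c + l - c) * (D * (L + 1) / (D * l / 2) ^ 2) =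
      4 * (L + 2) / (D * l) := by field_simp; ring
  rw [e1] at key
  have e2 : 4 * (L + 2) / (D * l) ≤ 4 * (L + 2) * l / X := by
    rw [hX, div_le_div_iff₀ (by positivity) (by positivity)]
    have : 4 * (L + 2) * (l ^ 2 * Δ) ≤ 4 * (L + 2) * (l ^ 2 * D) := by gcongr
    nlinarith
  calc _ ≤ 4 * (L + 2) * l / X * (2 * X) := by
        gcongr
        · exact key.trans e2
        · linarith
    _ = 8 * (L + 2) * l := by field_simp; ring
    _ ≤ kc L B * l := by unfold kc; gcongr; nlinarith [sq_nonneg (B * L)]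

theorem kc_pos {L : ℝ} (hL : 0 ≤ L) (B : ℝ) : 0 < kc L B := by unfold kc; positivity

/-- The integral of the model kernel. -/
noncomputable def cq (q : ℝ) : ℝ≥0∞ := ∫⁻ r : ℝ, ENNReal.ofReal ((1 + ‖r‖) ^ (-(q / 2)))

theorem cq_ne_top {q : ℝ} (hq : 2 < q) : cq q ≠ ∞ :=
  (finite_integral_one_add_norm (E := ℝ) (by simp; linarith)).ne

theorem kernel_integral (C l q : ℝ) (hC : 0 ≤ C) (hl : 0 < l) (hq : 0 < q) :
    ∫⁻ r : ℝ, ENNReal.ofReal (C * l * (1 + l ^ 2 * |r|)⁻¹) ^ (q / 2) =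
      ENNReal.ofReal (C ^ (q / 2) * l ^ (q / 2 - 2)) * cq q := by
  have h1 : ∀ r : ℝ, ENNReal.ofReal (C * l * (1 + l ^ 2 * |r|)⁻¹) ^ (q / 2) =
      ENNReal.ofReal ((C * l) ^ (q / 2)) *
        ENNReal.ofReal ((1 + ‖l ^ 2 * r‖) ^ (-(q / 2))) := fun r => by
    rw [ENNReal.ofReal_rpow_of_nonneg (by positivity) (by positivity),
      ← ENNReal.ofReal_mul (by positivity), Real.mul_rpow (by positivity) (by positivity),
      Real.inv_rpow (by positivity), Real.rpow_neg (by positivity), Real.norm_eq_abs, abs_mul,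
      abs_of_pos (by positivity : 0 < l ^ 2)]
  simp_rw [h1]
  have hm : Measurable fun r : ℝ => ENNReal.ofReal ((1 + ‖r‖) ^ (-(q / 2))) := by fun_prop
  rw [lintegral_const_mul _ (by fun_prop)]
  have h2 := lintegral_map (μ := volume) hm (measurable_const_mul (l ^ 2))
  rw [Real.map_volume_mul_left (by positivity), lintegral_smul_measure] at h2
  rw [← h2, smul_eq_mul, ← mul_assoc, ← ENNReal.ofReal_mul (by positivity)]
  unfold cq
  congr 2
  rw [abs_of_pos (by positivity), Real.mul_rpow hC hl.le, Real.rpow_sub hl, mul_assoc]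
  congr 1
  rw [Real.rpow_two, div_eq_mul_inv (l ^ (q / 2))]

theorem holder (J : Set ℝ) (f : ℝ → ℂ) (hf : Measurable f) (r p : ℝ) (hr : 0 < r) (hrp : r ≤ p) :
    ∫⁻ u in J, ‖f u‖ₑ ^ r ≤ volume J ^ (1 - r / p) * (∫⁻ u in J, ‖f u‖ₑ ^ p) ^ (r / p) := by
  have hp : 0 < p := hr.trans_le hrp
  have := ENNReal.lintegral_mul_norm_pow_le (μ := volume.restrict J) (f := fun _ => 1)
    (g := fun u => ‖f u‖ₑ ^ p) aemeasurable_const (hf.enorm.pow_const p).aemeasurable
    (p := 1 - r / p) (q := r / p) (by rw [sub_nonneg, div_le_one hp]; exact hrp) (by positivity)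
    (by ring)
  simp only [ENNReal.one_rpow, one_mul, lintegral_const, MeasurableSet.univ,
    Measure.restrict_apply, univ_inter] at this
  refine le_trans (le_of_eq ?_) this
  refine lintegral_congr fun u => ?_
  rw [← ENNReal.rpow_mul]
  congr 1
  field_simp

theorem measurable_wave {a b γ : ℝ → ℝ} (ha : Measurable a) (hb : Measurable b)
    (hγ : Measurable γ) : Measurable (uncurry (wave a b γ)) := by
  unfold wave uncurry
  fun_prop

theorem piece_bound {a b a1 b1 a2 b2 : ℝ → ℝ} {L : ℝ} (H : Curve a b a1 b1 a2 b2 L)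
    (B : ℝ) (γ σ : ℝ → ℝ) (hγ : Measurable γ) (ε : ℝ) (hε : |ε| = 1) (c l : ℝ) (hl : 0 < l)
    (hl1 : l ≤ 1) (hJ : Icc c (c + l) ⊆ Icc (0 : ℝ) 1) (A : Set ℝ) (hA : MeasurableSet A)
    (hch : ∀ s ∈ A, ∀ t ∈ A, ∃ m ∈ uIcc (σ s) (σ t),
      |γ t - γ s - m * (t - s)| ≤ B * √(1 + |t - s|))
    (hg : ∀ t ∈ A, ∀ u ∈ Icc c (c + l), l ≤ ε * dir a1 b1 (σ t) u)
    (f : ℝ → ℂ) (hf : Measurable f) (hfi : IntegrableOn f (Ioc c (c + l)))
    (p q : ℝ) (hp : 2 ≤ p) (hq : 2 < q) :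
    ∫⁻ t in A, ‖∫ u in c..(c + l), wave a b γ t u * f u‖ₑ ^ q ≤
      ENNReal.ofReal (kc L B ^ (q / 2)) * cq q * ENNReal.ofReal (l ^ (q - 2 - q / p)) *
        (∫⁻ u in Ioc c (c + l), ‖f u‖ₑ ^ p) ^ (q / p) := by
  have hL : 0 ≤ L := (abs_nonneg _).trans (H.hb1 0 ⟨le_rfl, zero_le_one⟩)
  have hcl : c ≤ c + l := by linarith
  have hp0 : 0 < p := by linarith
  have ham : Measurable a :=
    (continuous_iff_continuousAt.2 fun u => (H.da u).continuousAt).measurable
  have hbm : Measurable b :=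
    (continuous_iff_continuousAt.2 fun u => (H.db u).continuousAt).measurable
  have hw := measurable_wave ham hbm hγ
  simp_rw [intervalIntegral.integral_of_le hcl]
  refine lintegral_le_of_forall_fin_meas_le _ fun E hE hEf => ?_
  rw [Measure.restrict_restrict hE]
  rw [Measure.restrict_apply hE] at hEf
  have : IsFiniteMeasure (volume.restrict (E ∩ A)) := isFiniteMeasure_restrict.2 hEf
  have key := tts (volume.restrict (Ioc c (c + l))) (volume.restrict (E ∩ A))
    Measure.restrict_le_self (wave a b γ) hw (fun t u => (norm_wave _ _ _ _ _).le) f hf hfi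
    (fun r => ENNReal.ofReal (kc L B * l * (1 + l ^ 2 * |r|)⁻¹)) (by fun_prop)
    (by
      rw [Measure.prod_restrict]
      refine (ae_restrict_iff' ((hE.inter hA).prod (hE.inter hA))).2 (ae_of_all _ fun z hz => ?_)
      obtain ⟨m, hm, hr⟩ := hch z.2 hz.2.2 z.1 hz.1.2
      have := kernel_bound H B γ ε hε c l hl hl1 hJ z.1 z.2 _ _ m hm hr (hg _ hz.2.2) (hg _ hz.1.2)
      rw [intervalIntegral.integral_of_le hcl] at this
      rw [← ofReal_norm]
      exact ENNReal.ofReal_le_ofReal this) q hq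
  refine key.trans ?_
  rw [kernel_integral _ _ _ (kc_pos hL B).le hl (by linarith)]
  have h2 := holder (Ioc c (c + l)) f hf 2 p two_pos hp
  rw [Real.volume_Ioc, add_sub_cancel_left] at h2
  have h3 := ENNReal.rpow_le_rpow h2 (show 0 ≤ q / 2 by positivity)
  rw [ENNReal.mul_rpow_of_nonneg _ _ (by positivity), ← ENNReal.rpow_mul, ← ENNReal.rpow_mul,
    ENNReal.ofReal_rpow_of_pos hl, show 2 / p * (q / 2) = q / p by field_simp] at h3
  refine (mul_le_mul_right h3 _).trans (le_of_eq ?_)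
  have h4 : l ^ (q - 2 - q / p) = l ^ (q / 2 - 2) * l ^ ((1 - 2 / p) * (q / 2)) := by
    rw [← Real.rpow_add hl]; congr 1; field_simp; ring
  rw [h4, ENNReal.ofReal_mul (Real.rpow_nonneg (kc_pos hL B).le _),
    ENNReal.ofReal_mul (Real.rpow_nonneg hl.le _)]
  ring

end Pool.Agent.Lib.MP_108739_an
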